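import Pool.Agent.H85.MG.Magnus

/-!
# helper85: embedding free solvable groups of derived length three: the reduction

`magnus3`: three Magnus steps. `embed`: the quotient by the third derived group embeds.
`derived_three`: a product `M B T` of three abelian subgroups, each normalised by the following
ones, has derived length at most three.
-/

namespace Pool.Agent.H85.MG

open Subgroup
open scoped commutatorElement

/-- The first step: independence modulo commutators. -/
theorem ker_le_commutator {α G : Type*} [CommGroup G] (f : FreeGroup α →* G)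
    (hind : ∀ n : α →₀ ℤ, (n.prod fun i k => f (FreeGroup.of i) ^ k) = 1 → n = 0) :
    f.ker ≤ derivedSeries (FreeGroup α) 1 := by
  classical
  intro w hw
  let _ : DistribMulAction PUnit.{1} (Additive G) :=
    { smul := fun _ a => a
      one_smul := fun _ => rfl
      mul_smul := fun _ _ _ => rfl
      smul_zero := fun _ => rfl
      smul_add := fun _ _ _ => rfl }
  have h := magnus (α := α) (G := PUnit.{1}) (A := Additive G) 1
    (fun x => Additive.ofMul (f x)) (fun x y => by rw [map_mul]; rfl) ?_ w rfl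
    (by rw [MonoidHom.mem_ker] at hw; rw [hw]; rfl)
  · rw [derivedSeries_succ, derivedSeries_zero]
    have h1 : (1 : FreeGroup α →* PUnit.{1}).ker = ⊤ := MonoidHom.ker_one
    rw [h1] at h
    exact h
  · intro n hn
    have hsub : Subsingleton (1 : FreeGroup α →* PUnit.{1}).range :=
      ⟨fun a b => Subtype.ext (Subsingleton.elim _ _)⟩
    have h1 := hind (n.mapDomain Prod.snd) (by
      rw [Finsupp.prod_mapDomain_index (fun i => zpow_zero _) (fun i a b => zpow_add _ _ _)]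
      exact hn)
    have hinj : Function.Injective
        (Prod.snd : (1 : FreeGroup α →* PUnit.{1}).range × α → α) := by
      rintro ⟨a, i⟩ ⟨b, j⟩ hij
      exact Prod.ext (Subsingleton.elim _ _) hij
    exact Finsupp.mapDomain_injective hinj (by rw [h1, Finsupp.mapDomain_zero])

/-- One Magnus step for the derived series. -/
theorem magnus_step {α G A : Type*} [Group G] [AddCommGroup A] [DistribMulAction G A] {k : ℕ}
    (f : FreeGroup α →* G) (hk : f.ker ≤ derivedSeries (FreeGroup α) k) (D : FreeGroup α → A)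
    (hD : ∀ x y, D (x * y) = D x + f x • D y)
    (hind : ∀ n : f.range × α →₀ ℤ,
      (n.sum fun p k => k • ((p.1 : G) • D (FreeGroup.of p.2))) = 0 → n = 0)
    (w : FreeGroup α) (hw : f w = 1) (hw' : D w = 0) :
    w ∈ derivedSeries (FreeGroup α) (k + 1) := by
  rw [derivedSeries_succ]
  exact commutator_mono hk hk (magnus f D hD hind w hw hw')

/-- Three Magnus steps: `f₁` to a commutative group with independent values, a crossed homomorphism
`D₂` over `f₁`, a homomorphism `f₂` which determines `f₁` and `D₂`, a crossed homomorphism `D₃`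
over `f₂`. -/
theorem magnus3 {α G₁ G₂ A₂ A₃ : Type*} [CommGroup G₁] [Group G₂] [AddCommGroup A₂]
    [AddCommGroup A₃] [DistribMulAction G₁ A₂] [DistribMulAction G₂ A₃]
    (f₁ : FreeGroup α →* G₁)
    (h₁ : ∀ n : α →₀ ℤ, (n.prod fun i k => f₁ (FreeGroup.of i) ^ k) = 1 → n = 0)
    (D₂ : FreeGroup α → A₂) (hD₂ : ∀ x y, D₂ (x * y) = D₂ x + f₁ x • D₂ y)
    (h₂ : ∀ n : f₁.range × α →₀ ℤ,
      (n.sum fun p k => k • ((p.1 : G₁) • D₂ (FreeGroup.of p.2))) = 0 → n = 0)
    (f₂ : FreeGroup α →* G₂) (hf₂ : ∀ w, f₂ w = 1 → f₁ w = 1 ∧ D₂ w = 0)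
    (D₃ : FreeGroup α → A₃) (hD₃ : ∀ x y, D₃ (x * y) = D₃ x + f₂ x • D₃ y)
    (h₃ : ∀ n : f₂.range × α →₀ ℤ,
      (n.sum fun p k => k • ((p.1 : G₂) • D₃ (FreeGroup.of p.2))) = 0 → n = 0)
    (w : FreeGroup α) (hw : f₂ w = 1) (hw' : D₃ w = 0) :
    w ∈ derivedSeries (FreeGroup α) 3 := by
  have k1 := ker_le_commutator f₁ h₁
  have k2 : f₂.ker ≤ derivedSeries (FreeGroup α) 2 := by
    intro v hv
    obtain ⟨a, b⟩ := hf₂ v hv
    exact magnus_step f₁ k1 D₂ hD₂ h₂ v a b
  exact magnus_step f₂ k2 D₃ hD₃ h₃ w hw hw'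

/-- A subgroup `N T` with `T` commutative and normalising `N` has its commutators in `N`. -/
theorem comm_le {P : Type*} [Group P] (N T : Subgroup P)
    (hT : ∀ s ∈ T, ∀ t ∈ T, s * t = t * s) (hN : ∀ t ∈ T, ∀ x ∈ N, t * x * t⁻¹ ∈ N) :
    ⁅N ⊔ T, N ⊔ T⁆ ≤ N := by
  let S : Subgroup P :=
    { carrier := {p | ∃ x ∈ N, ∃ t ∈ T, p = x * t}
      mul_mem' := by
        rintro a b ⟨x, hx, t, ht, rfl⟩ ⟨y, hy, u, hu, rfl⟩
        refine ⟨x * (t * y * t⁻¹), N.mul_mem hx (hN t ht y hy), t * u, T.mul_mem ht hu, ?_⟩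
        group
      one_mem' := ⟨1, N.one_mem, 1, T.one_mem, by rw [mul_one]⟩
      inv_mem' := by
        rintro a ⟨x, hx, t, ht, rfl⟩
        refine ⟨t⁻¹ * x⁻¹ * t, ?_, t⁻¹, T.inv_mem ht, ?_⟩
        · have := hN t⁻¹ (T.inv_mem ht) x⁻¹ (N.inv_mem hx)
          rwa [inv_inv] at this
        · group }
  have hS : N ⊔ T ≤ S := by
    refine sup_le (fun x hx => ⟨x, hx, 1, T.one_mem, by rw [mul_one]⟩)
      (fun t ht => ⟨1, N.one_mem, t, ht, by rw [one_mul]⟩)
  rw [commutator_le]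
  intro a ha b hb
  obtain ⟨x, hx, t, ht, rfl⟩ := hS ha
  obtain ⟨y, hy, u, hu, rfl⟩ := hS hb
  have h1 : ⁅x * t, y * u⁆ = x * (t * y * t⁻¹) * (u * x * u⁻¹)⁻¹ * y⁻¹ := by
    rw [commutatorElement_def]
    have h2 := hT t ht u hu
    calc x * t * (y * u) * (x * t)⁻¹ * (y * u)⁻¹
        = x * (t * y * t⁻¹) * (t * u * t⁻¹) * x⁻¹ * u⁻¹ * y⁻¹ := by group
      _ = x * (t * y * t⁻¹) * (u * x * u⁻¹)⁻¹ * y⁻¹ := by
          rw [h2]
          group
  rw [h1]
  exact N.mul_mem (N.mul_mem (N.mul_mem hx (hN t ht y hy)) (N.inv_mem (hN u hu x hx)))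
    (N.inv_mem hy)

/-- Three abelian layers. -/
theorem derived_three {α P : Type*} [Group P] (φ : FreeGroup α →* P) (M B T : Subgroup P)
    (hM : ∀ s ∈ M, ∀ t ∈ M, s * t = t * s) (hB : ∀ s ∈ B, ∀ t ∈ B, s * t = t * s)
    (hT : ∀ s ∈ T, ∀ t ∈ T, s * t = t * s)
    (hBM : ∀ t ∈ B, ∀ x ∈ M, t * x * t⁻¹ ∈ M) (hTM : ∀ t ∈ T, ∀ x ∈ M, t * x * t⁻¹ ∈ M)
    (hTB : ∀ t ∈ T, ∀ x ∈ B, t * x * t⁻¹ ∈ B)
    (hφ : ∀ i, φ (FreeGroup.of i) ∈ (M ⊔ B) ⊔ T) :
    ∀ w ∈ derivedSeries (FreeGroup α) 3, φ w = 1 := by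
  have hr : φ.range ≤ (M ⊔ B) ⊔ T := by
    rintro _ ⟨w, rfl⟩
    induction w using FreeGroup.induction_on with
    | C1 => rw [map_one]; exact one_mem _
    | of i => exact hφ i
    | inv_of i ih => rw [map_inv]; exact inv_mem ih
    | mul x y hx hy => rw [map_mul]; exact mul_mem hx hy
  have hTMB : ∀ t ∈ T, ∀ x ∈ M ⊔ B, t * x * t⁻¹ ∈ M ⊔ B := by
    intro t ht x hx
    have h1 : M ⊔ B ≤ (M ⊔ B).comap (MulAut.conj t).toMonoidHom := by
      refine sup_le (fun y hy => ?_) (fun y hy => ?_)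
      · exact mem_sup_left (hTM t ht y hy)
      · exact mem_sup_right (hTB t ht y hy)
    exact h1 hx
  have h1 : (derivedSeries (FreeGroup α) 1).map φ ≤ M ⊔ B := by
    rw [derivedSeries_succ, derivedSeries_zero, map_commutator]
    refine (commutator_mono ?_ ?_).trans (comm_le (M ⊔ B) T hT hTMB)
    · rw [← MonoidHom.range_eq_map]; exact hr
    · rw [← MonoidHom.range_eq_map]; exact hr
  have h2 : (derivedSeries (FreeGroup α) 2).map φ ≤ M := by
    rw [derivedSeries_succ, map_commutator]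
    exact (commutator_mono h1 h1).trans (comm_le M B hB hBM)
  have h3 : (derivedSeries (FreeGroup α) 3).map φ ≤ ⊥ := by
    rw [derivedSeries_succ, map_commutator]
    refine (commutator_mono h2 h2).trans ?_
    rw [commutator_le]
    intro a ha b hb
    rw [mem_bot, commutatorElement_def, hM a ha b hb]
    group
  intro w hw
  exact mem_bot.1 (h3 ⟨w, hw, rfl⟩)

/-- The quotient by the third derived group embeds. -/
theorem embed {α P : Type*} [Group P] (φ : FreeGroup α →* P)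
    (h3 : ∀ w ∈ derivedSeries (FreeGroup α) 3, φ w = 1)
    (hk : ∀ w, φ w = 1 → w ∈ derivedSeries (FreeGroup α) 3) :
    ∃ f : (FreeGroup α ⧸ derivedSeries (FreeGroup α) 3) →* P, Function.Injective f := by
  refine ⟨QuotientGroup.lift _ φ h3, ?_⟩
  rw [injective_iff_map_eq_one]
  intro x
  induction x using QuotientGroup.induction_on with
  | H w =>
    intro hw
    rw [QuotientGroup.eq_one_iff]
    exact hk w hw

end Pool.Agent.H85.MG
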