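import Pool.Agent.H85.MG.Model2

/-!
# helper85: independence of characters
-/

namespace Pool.Agent.H85.MG

section

variable (L : Type*) [CommRing L]

/-- the sign of an element of `ZMod 2` -/
def sgl (k : ZMod 2) : L := (-1) ^ k.val

theorem sgl_zero : sgl L 0 = 1 := by simp [sgl]
theorem sgl_one : sgl L 1 = -1 := by
  have : (1 : ZMod 2).val = 1 := rfl
  simp [sgl, this]

theorem sgl_add (k l : ZMod 2) : sgl L (k + l) = sgl L k * sgl L l := by
  have h11 : (1 + 1 : ZMod 2) = 0 := by decide
  have h2 : ∀ x : ZMod 2, x = 0 ∨ x = 1 := by decide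
  rcases h2 k with rfl | rfl <;> rcases h2 l with rfl | rfl
  · simp [sgl_zero]
  · simp [sgl_zero, sgl_one]
  · simp [sgl_zero, sgl_one]
  · rw [h11, sgl_zero, sgl_one]
    ring

variable {V : Type*} [AddCommGroup V] [Module (ZMod 2) V]

/-- the character of the dual given by a vector -/
def chr (v : V) : Multiplicative (V →ₗ[ZMod 2] ZMod 2) →* L where
  toFun x := sgl L (x.toAdd v)
  map_one' := by
    rw [toAdd_one, LinearMap.zero_apply, sgl_zero]
  map_mul' x y := by
    rw [toAdd_mul, LinearMap.add_apply, sgl_add]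

theorem chr_injective [CharZero L] : Function.Injective (chr L : V → _) := by
  intro v w h
  rw [← sub_eq_zero, ← Module.forall_dual_apply_eq_zero_iff (ZMod 2)]
  intro x
  have h1 : sgl L (x v) = sgl L (x w) := DFunLike.congr_fun h (Multiplicative.ofAdd x)
  rw [map_sub, sub_eq_zero]
  have h2 : ∀ x : ZMod 2, x = 0 ∨ x = 1 := by decide
  have h3 : (1 : L) ≠ -1 := by
    intro h
    have h4 : (2 : L) = 0 := by linear_combination h
    exact two_ne_zero h4
  rcases h2 (x v) with h4 | h4 <;> rcases h2 (x w) with h5 | h5 <;> rw [h4, h5]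
  · rw [h4, h5, sgl_zero, sgl_one] at h1
    exact absurd h1 h3
  · rw [h4, h5, sgl_zero, sgl_one] at h1
    exact absurd h1.symm h3

variable [CharZero L] [IsDomain L]

/-- Integral independence of characters. -/
theorem chr_indep {ι : Type*} (u : ι → V) (hu : Function.Injective u) (n : ι →₀ ℤ)
    (h : ∀ x : V →ₗ[ZMod 2] ZMod 2, (n.sum fun p k => (k : L) * sgl L (x (u p))) = 0) :
    n = 0 := by
  have h1 : LinearIndependent L fun p : ι => ((chr L (u p) :
      Multiplicative (V →ₗ[ZMod 2] ZMod 2) →* L) : Multiplicative (V →ₗ[ZMod 2] ZMod 2) → L) :=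
    (linearIndependent_monoidHom (Multiplicative (V →ₗ[ZMod 2] ZMod 2)) L).comp
      (fun p => chr L (u p)) ((chr_injective L).comp hu)
  rw [linearIndependent_iff] at h1
  have h2 := h1 (n.mapRange (fun k : ℤ => (k : L)) Int.cast_zero) (by
    rw [Finsupp.linearCombination_apply, Finsupp.sum_mapRange_index (by intro a; rw [zero_smul])]
    funext x
    have h3 := h x.toAdd
    rw [Finsupp.sum] at h3 ⊢
    rw [Finset.sum_apply]
    exact h3)
  ext p
  have h3 := DFunLike.congr_fun h2 p
  rw [Finsupp.mapRange_apply, Finsupp.zero_apply] at h3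
  rw [Finsupp.zero_apply]
  exact_mod_cast h3

/-- The same for the functions `1 - χ`. -/
theorem chr_indep' {ι : Type*} (u : ι → V) (hu : Function.Injective u) (hu0 : ∀ p, u p ≠ 0)
    (n : ι →₀ ℤ)
    (h : ∀ x : V →ₗ[ZMod 2] ZMod 2, (n.sum fun p k => (k : L) * (1 - sgl L (x (u p)))) = 0) :
    n = 0 := by
  classical
  have h1 := chr_indep L (fun o : Option ι => o.elim (0 : V) u) (by
    rintro (_ | p) (_ | q) hpq
    · rfl
    · exact absurd hpq.symm (hu0 q)
    · exact absurd hpq (hu0 p)
    · exact congrArg some (hu hpq))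
    (Finsupp.single none (n.sum fun _ k => k) - n.mapDomain some) (by
      intro x
      rw [Finsupp.sum_sub_index (fun _ _ _ => by push_cast; ring),
        Finsupp.sum_single_index (by simp),
        Finsupp.sum_mapDomain_index (fun _ => by simp) (fun _ _ _ => by push_cast; ring)]
      rw [← h x]
      simp only [Option.elim, map_zero, sgl_zero, mul_one, Finsupp.sum, Int.cast_sum, mul_sub,
        Finset.sum_sub_distrib])
  ext p
  have h2 := DFunLike.congr_fun h1 (some p)
  rw [Finsupp.sub_apply, Finsupp.mapDomain_apply (Option.some_injective ι),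
    Finsupp.single_eq_of_ne (by simp), Finsupp.zero_apply, zero_sub, neg_eq_zero] at h2
  exact h2

end

end Pool.Agent.H85.MG
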