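import Pool.Agent.H85.MG.Model5
import Pool.Agent.H85.MG.Free1

/-!
# helper85: multiplicative independence and crossed homomorphisms from monomial operators
-/

namespace Pool.Agent.H85.MG

open Mn

section indep

open Polynomial

theorem key {r : ℕ} (a b : Fin r → ℕ) (c e : ℕ)
    (hP : (X ^ c * ∏ j : Fin r, (1 + X ^ (2 * (j : ℕ) + 3)) ^ a j : (ZMod 2)[X]) =
      X ^ e * ∏ j : Fin r, (1 + X ^ (2 * (j : ℕ) + 3)) ^ b j) (i : Fin r) (ha : a i ≠ 0)
    (hb : b i = 0) (hj : ∀ j, i < j → b j = 0) : False := by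
  have hm : NeZero (((2 * (i : ℕ) + 3 : ℕ)) : KK) := ⟨by
    intro h
    rw [CharP.cast_eq_zero_iff KK 2] at h
    omega⟩
  obtain ⟨ζ, hζ⟩ := HasEnoughRootsOfUnity.exists_primitiveRoot KK (2 * (i : ℕ) + 3)
  have h1 := congrArg (aeval ζ) hP
  simp only [map_mul, map_prod, map_pow, map_add, map_one, aeval_X] at h1
  have hζ0 : ζ ≠ 0 := hζ.ne_zero (by omega)
  have h2 : ∏ j : Fin r, (1 + ζ ^ (2 * (j : ℕ) + 3)) ^ a j = 0 := by
    refine Finset.prod_eq_zero (Finset.mem_univ i) ?_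
    rw [hζ.pow_eq_one, CharTwo.add_self_eq_zero, zero_pow ha]
  rw [h2, mul_zero] at h1
  have h3 : ∏ j : Fin r, (1 + ζ ^ (2 * (j : ℕ) + 3)) ^ b j ≠ 0 := by
    rw [Finset.prod_ne_zero_iff]
    intro j _
    rcases lt_trichotomy i j with hij | hij | hij
    · rw [hj j hij, pow_zero]
      exact one_ne_zero
    · rw [← hij, hb, pow_zero]
      exact one_ne_zero
    · apply pow_ne_zero
      intro h4
      have h5 : ζ ^ (2 * (j : ℕ) + 3) = 1 := by
        have h6 := two_KK
        linear_combination h4 - h6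
      have h6 := hζ.dvd_of_pow_eq_one _ h5
      have h7 := Nat.le_of_dvd (by omega) h6
      have h8 : (j : ℕ) < i := hij
      omega
  exact (mul_ne_zero (pow_ne_zero e hζ0) h3) h1.symm

theorem su_val (i : ℕ) : ((su i : KKˣ) : KK) = 1 + p0 ^ (2 * i + 3) := rfl
theorem p0u_val : ((p0u : KKˣ) : KK) = p0 := rfl

theorem su_indep {r : ℕ} (n : Fin r → ℤ) (k : ℤ) (h : p0u ^ k * ∏ i : Fin r, su i ^ n i = 1) :
    n = 0 ∧ k = 0 := by
  have hu : ∀ (u : KKˣ) (k : ℤ), u ^ (k.toNat) = u ^ k * u ^ ((-k).toNat) := by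
    intro u k
    rw [← zpow_natCast, ← zpow_natCast, ← zpow_add]
    congr 1
    omega
  have h1 : p0u ^ k.toNat * ∏ i : Fin r, su i ^ (n i).toNat =
      p0u ^ (-k).toNat * ∏ i : Fin r, su i ^ (-(n i)).toNat := by
    rw [hu p0u k, Finset.prod_congr rfl fun (i : Fin r) _ => hu (su i) (n i),
      Finset.prod_mul_distrib]
    calc p0u ^ k * p0u ^ (-k).toNat * ((∏ i : Fin r, su i ^ n i) *
          ∏ i : Fin r, su i ^ (-(n i)).toNat)
        = (p0u ^ k * ∏ i : Fin r, su i ^ n i) * (p0u ^ (-k).toNat *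
          ∏ i : Fin r, su i ^ (-(n i)).toNat) := by
          ac_rfl
      _ = _ := by rw [h, one_mul]
  have h2 : (X ^ k.toNat * ∏ j : Fin r, (1 + X ^ (2 * (j : ℕ) + 3)) ^ (n j).toNat : (ZMod 2)[X]) =
      X ^ (-k).toNat * ∏ j : Fin r, (1 + X ^ (2 * (j : ℕ) + 3)) ^ (-(n j)).toNat := by
    apply p0_aeval
    have h3 := congrArg (Units.val) h1
    simp only [Units.val_mul, Units.coe_prod, Units.val_pow_eq_pow_val, su_val, p0u_val] at h3
    simp only [map_mul, map_prod, map_pow, map_add, map_one, aeval_X]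
    exact h3
  have h3 : n = 0 := by
    by_contra hn
    have h4 : (Finset.univ.filter fun i => n i ≠ 0).Nonempty := by
      obtain ⟨i, hi⟩ := Function.ne_iff.1 hn
      exact ⟨i, by simpa using hi⟩
    obtain ⟨i, hi, hmax⟩ := Finset.exists_max_image _ (fun i : Fin r => i) h4
    have hi' : n i ≠ 0 := by simpa using hi
    have hj : ∀ j, i < j → n j = 0 := by
      intro j hj
      by_contra h5
      exact absurd (hmax j (by simpa using h5)) (not_le.2 hj)
    rcases lt_or_gt_of_ne hi' with h5 | h5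
    · exact key (fun j => (-(n j)).toNat) (fun j => (n j).toNat) _ _ h2.symm i
        (by omega) (by omega)
        (fun j hij => by simp [hj j hij])
    · exact key (fun j => (n j).toNat) (fun j => (-(n j)).toNat) _ _ h2 i
        (by omega) (by omega)
        (fun j hij => by simp [hj j hij])
  refine ⟨h3, ?_⟩
  rw [h3] at h2
  simp only [Pi.zero_apply, Int.toNat_zero, neg_zero, pow_zero, Finset.prod_const_one,
    mul_one] at h2
  have h4 := congrArg natDegree h2
  rw [natDegree_X_pow, natDegree_X_pow] at h4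
  omega

end indep

/-! ### Functions on the dual -/

/-- Functions on the dual. -/
def FD (V : Type*) [AddCommGroup V] [Module (ZMod 2) V] (L : Type*) : Type _ :=
  (V →ₗ[ZMod 2] ZMod 2) → L

section level

variable {V : Type*} [AddCommGroup V] [Module (ZMod 2) V] {L : Type*} [AddCommGroup L]

instance : AddCommGroup (FD V L) := inferInstanceAs (AddCommGroup ((V →ₗ[ZMod 2] ZMod 2) → L))

instance : DistribMulAction (LA V) (FD V L) where
  smul q h := fun ξ => h (ξ ∘ₗ (q : V →ₗ[ZMod 2] V))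
  one_smul _ := rfl
  mul_smul _ _ _ := rfl
  smul_zero _ := rfl
  smul_add _ _ _ := rfl

theorem FD.smul_apply (q : LA V) (h : FD V L) (ξ : V →ₗ[ZMod 2] ZMod 2) :
    (q • h : FD V L) ξ = h (ξ ∘ₗ (q : V →ₗ[ZMod 2] V)) := rfl

theorem FD.add_apply (h h' : FD V L) (ξ : V →ₗ[ZMod 2] ZMod 2) :
    (h + h' : FD V L) ξ = h ξ + h' ξ := rfl

/-- evaluation -/
def FD.ev (ξ : V →ₗ[ZMod 2] ZMod 2) : FD V L →+ L where
  toFun h := h ξ
  map_zero' := rfl
  map_add' _ _ := rfl

variable {α : Type*} (f : FreeGroup α →* LA V) (Φ : FreeGroup α →* Mn (Multiplicative L) V)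
  (c : α → Ix V → Multiplicative L)

theorem lvl_pm (hΦ : ∀ i, Φ (FreeGroup.of i) = dg (c i) * act (f (FreeGroup.of i)))
    (w : FreeGroup α) (j : Ix V) :
    (Φ w).pm j = (j.1, j.2 ∘ₗ ((f w : LA V) : V →ₗ[ZMod 2] V)) := by
  have h : (Mn.map (1 : Multiplicative L →* PUnit.{1})).comp Φ =
      (act : LA V →* Mn PUnit.{1} V).comp f := by
    apply FreeGroup.ext_hom
    intro i
    rw [MonoidHom.comp_apply, MonoidHom.comp_apply, hΦ]
    exact ext' (fun _ => rfl) (fun _ => rfl)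
  have h1 := DFunLike.congr_fun h w
  exact congrArg (fun a : Mn PUnit.{1} V => a.pm j) h1

/-- the crossed homomorphism -/
def Dl (w : FreeGroup α) : FD V L := fun ξ => ((Φ w).fn (0, ξ)).toAdd

theorem Dl_mul (hΦ : ∀ i, Φ (FreeGroup.of i) = dg (c i) * act (f (FreeGroup.of i)))
    (x y : FreeGroup α) : Dl Φ (x * y) = Dl Φ x + f x • Dl Φ y := by
  funext ξ
  rw [FD.add_apply, FD.smul_apply]
  change ((Φ (x * y)).fn (0, ξ)).toAdd = _
  rw [map_mul, mul_fn, lvl_pm f Φ c hΦ, toAdd_mul]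
  rfl

theorem Dl_of (hΦ : ∀ i, Φ (FreeGroup.of i) = dg (c i) * act (f (FreeGroup.of i))) (i : α)
    (ξ : V →ₗ[ZMod 2] ZMod 2) : Dl Φ (FreeGroup.of i) ξ = (c i (0, ξ)).toAdd := by
  change ((Φ (FreeGroup.of i)).fn (0, ξ)).toAdd = _
  rw [hΦ]
  change (c i (0, ξ) * 1).toAdd = _
  rw [mul_one]

/-- separation by linear forms -/
theorem LA_eq_one {q : LA V} (h : ∀ ξ : V →ₗ[ZMod 2] ZMod 2,
    ξ ∘ₗ (q : V →ₗ[ZMod 2] V) = ξ) : q = 1 := by
  ext v
  rw [← sub_eq_zero, ← Module.forall_dual_apply_eq_zero_iff (ZMod 2)]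
  intro ξ
  rw [map_sub, sub_eq_zero]
  exact LinearMap.congr_fun (h ξ) v

theorem lvl_one (hΦ : ∀ i, Φ (FreeGroup.of i) = dg (c i) * act (f (FreeGroup.of i)))
    {w : FreeGroup α} (hw : Φ w = 1) : f w = 1 ∧ Dl Φ w = 0 := by
  constructor
  · apply LA_eq_one
    intro ξ
    have h1 := lvl_pm f Φ c hΦ w (0, ξ)
    rw [hw, one_pm] at h1
    exact (Prod.ext_iff.1 h1).2.symm
  · funext ξ
    change ((Φ w).fn (0, ξ)).toAdd = 0
    rw [hw]
    rfl

end level

/-- The action on functions is faithful. -/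
theorem toLA_eq_one {V W : Type*} [AddCommGroup V] [Module (ZMod 2) V] [AddCommGroup W]
    [Module (ZMod 2) W] [Nontrivial W] {a : Mn (LA W) V} (h : toLA a = 1) : a = 1 := by
  classical
  have h1 : ∀ (F : Ix V → W) (i : Ix V), a.fn i (F (a.pm i)) = F i := by
    intro F i
    exact congrFun (LinearEquiv.congr_fun h F) i
  have h2 : ∀ i, a.pm i = i := by
    intro i
    by_contra h3
    obtain ⟨w, hw⟩ := exists_ne (0 : W)
    have h4 := h1 (Pi.single i w) i
    rw [Pi.single_eq_same, Pi.single_eq_of_ne h3, map_zero] at h4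
    exact hw h4.symm
  refine ext' (fun i => ?_) h2
  ext w
  have h3 := h1 (fun _ => w) i
  exact h3

/-- Functoriality is injective on coefficients. -/
theorem map_eq_one {V G G' : Type*} [AddCommGroup V] [Module (ZMod 2) V] [Group G] [Group G']
    {φ : G →* G'} (hφ : ∀ g, φ g = 1 → g = 1) {a : Mn G V} (h : Mn.map φ a = 1) : a = 1 := by
  refine ext' (fun i => ?_) (fun i => ?_)
  · exact hφ _ (congrArg (fun b : Mn G' V => b.fn i) h)
  · exact congrArg (fun b : Mn G' V => b.pm i) h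

theorem act_eq_one {V G : Type*} [AddCommGroup V] [Module (ZMod 2) V] [Group G] {q : LA V}
    (h : (act q : Mn G V) = 1) : q = 1 := by
  apply LA_eq_one
  intro ξ
  have h1 := congrArg (fun b : Mn G V => (b.pm (0, ξ)).2) h
  exact h1

end Pool.Agent.H85.MG
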