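import Pool.Agent.H85.MG.Model5

/-!
# helper85: the relations (R12)-(R16) in the model
-/

namespace Pool.Agent.H85.MG

open scoped commutatorElement
open Mn Pool.Agent.H86.FS

noncomputable section

/-- `Z` in the base group -/
theorem gb_Z (r : ℕ) : (gb r).Z = loc (scal zu) := by
  simp only [gb, Gens.Z]
  rw [← map_commutatorElement, opXY]

theorem gm_Z (r : ℕ) : (gm r).Z = BB (loc (scal zu)) := by
  have : (gm r).Z = BB (gb r).Z := (map_commutatorElement BB _ _).symm
  rw [this, gb_Z]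

theorem gm_X (r : ℕ) : (gm r).X = BB (loc opX) := rfl
theorem gm_Y (r : ℕ) : (gm r).Y = BB (loc opY) := rfl
theorem gm_d (r : ℕ) : (gm r).d = BB dd := rfl

theorem gm_rho (r : ℕ) : (gm r).rho = BB (cc opS 1 1) := by
  have : (gm r).rho = BB (gb r).rho := (map_commutatorElement BB _ _).symm
  rw [this]
  congr 1
  exact th_et opS_mul_self _ _

theorem gm_sb (r : ℕ) : (gm r).sb = BB (glob opS) := by
  have : (gm r).sb = BB (gb r).sb := (map_commutatorElement BB _ _).symm
  rw [this]
  congr 1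
  exact dd_sgn opS_mul_self

theorem pU_pow_31 (i : IF) : ((pU i ^ 31 : KKˣ) : KK) + ((pU i ^ 31 : KKˣ)⁻¹ : KKˣ) =
    p0 ^ 31 + (p0 ^ 31)⁻¹ := by
  have h1 : zp i.2 ^ 31 = 1 := by rw [zp, ← pow_mul, mul_comm, pow_mul, zu_pow, one_pow]
  have h2 : pU i ^ 31 = (if i.1 then p0u else p0u⁻¹) ^ 31 := by
    rw [pU, mul_pow, h1, mul_one]
  rw [h2]
  cases h : i.1
  · simp [p0u, add_comm]
  · simp [p0u]

theorem opX_pow (n : ℕ) (F : V0) (i : IF) : (opX ^ n) F i = ((pU i ^ n : KKˣ) : KK) * F i := by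
  rw [opX, ← map_pow]
  rfl

theorem opX_pow_inv (n : ℕ) (F : V0) (i : IF) :
    ((opX ^ n)⁻¹ : LA V0) F i = ((pU i ^ n : KKˣ)⁻¹ : KKˣ) * F i := by
  rw [opX, ← map_pow, ← map_inv]
  rfl

theorem gm_Z_pow (r n : ℕ) : (gm r).Z ^ n = BB (loc (scal zu ^ n)) := by
  rw [gm_Z, ← map_pow, ← map_pow]

theorem gm_X_pow (r n : ℕ) : (gm r).X ^ n = BB (loc (opX ^ n)) := by
  rw [gm_X, ← map_pow, ← map_pow]

theorem gm_X_pow_inv (r n : ℕ) : ((gm r).X ^ n)⁻¹ = BB (loc (opX ^ n)⁻¹) := by
  rw [gm_X_pow, ← map_inv, ← map_inv]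

theorem toLA_loc_apply (f : LA V0) (i : Ix KK) (j : IF) :
    toLA (loc f : GB) v0 i j = if i.1 = 0 then f 1 j else 0 := by
  rw [toLA_loc]
  by_cases h : i.1 = 0 <;> simp [h]

theorem toLA_scal_apply (u : KKˣ) (i : Ix KK) (j : IF) :
    toLA (glob (scal u) : GB) v0 i j = u * v0 i j := rfl

theorem v0_apply (i : Ix KK) (j : IF) : v0 i j = if i.1 = 0 then 1 else 0 := rfl

theorem scal_pow_one (u : KKˣ) (n : ℕ) (j : IF) : ((scal u ^ n : LA V0) 1) j = (u : KK) ^ n := by
  rw [scal, ← map_pow, mulV_apply]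
  simp

theorem Phi_v0 : toLA (loc (scal zu ^ 5) : GB) v0 + toLA (loc (scal zu ^ 2) : GB) v0 + v0 = 0 := by
  funext i j
  rw [Pi.add_apply, Pi.add_apply, Pi.add_apply, Pi.add_apply, toLA_loc_apply, toLA_loc_apply,
    scal_pow_one, scal_pow_one, v0_apply]
  split
  · exact zz_rel
  · simp

theorem J1_v0 : toLA (glob (scal j1u) : GB) v0 =
    toLA (loc (opX ^ 31) : GB) v0 + toLA (loc (opX ^ 31)⁻¹ : GB) v0 := by
  funext i j
  rw [Pi.add_apply, Pi.add_apply, toLA_loc_apply, toLA_loc_apply, toLA_scal_apply, v0_apply,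
    opX_pow, opX_pow_inv]
  split
  · rw [Pi.one_apply, mul_one, mul_one, mul_one, pU_pow_31]
    rfl
  · simp

theorem J2_v0 : toLA (glob (scal j2u) : GB) v0 =
    toLA (loc (opX ^ 31) : GB) v0 + v0 + toLA (loc (opX ^ 31)⁻¹ : GB) v0 := by
  funext i j
  rw [Pi.add_apply, Pi.add_apply, Pi.add_apply, Pi.add_apply, toLA_loc_apply, toLA_loc_apply,
    toLA_scal_apply, v0_apply, opX_pow, opX_pow_inv]
  split
  · rw [Pi.one_apply, mul_one, mul_one, mul_one, add_right_comm, pU_pow_31]
    change p0 ^ 31 + 1 + (p0 ^ 31)⁻¹ = _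
    ring
  · simp

theorem CT.crel {T : V2 → GT} (hT : CT T) (r : ℕ) : CRel (gm r) (T v0) where
  sq := by
    rw [← hT.add, add_self_V, hT.zero]
  com := by
    simp only [List.forall_mem_cons, List.not_mem_nil, false_imp_iff, implies_true, and_true]
    refine ⟨hT.fix (fix_act _), hT.fix (fix_act _), hT.fix (fix_act _), hT.fix (fix_et _),
      hT.fix fix_sgn, ?_, ?_, hT.fix_ph fix_frob, hT.fix fix_Y, ?_, ?_⟩
    · rw [gm_rho]
      exact hT.fix (fix_cc _ _)
    · rw [gm_sb]
      exact hT.fix fix_globS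
    · rw [gm_d, gm_X, ← cj_map]
      exact hT.fix (fix_conj _)
    · rw [gm_d, gm_Y, ← cj_map]
      exact hT.fix (fix_conj _)
  coms := fun i => hT.fix (fix_act _)
  swap := by
    rw [gm_d, hT.conj]
    exact hT.comm _ _
  cth := by
    rw [gm_d, hT.conj, ← hT.add, toLA_dd_v0]
    exact (hT.fix rfl).symm
  Phi := by
    rw [gm_Z_pow, gm_Z_pow, hT.conj, hT.conj, ← hT.add, ← hT.add, Phi_v0, hT.zero]
  J1 := by
    have hJ : (gm r).J1 = BB (glob (scal j1u)) := rfl
    rw [gm_X_pow_inv, gm_X_pow, hJ, hT.conj, hT.conj, hT.conj, ← hT.add, J1_v0]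
  J2 := by
    have hJ : (gm r).J2 = BB (glob (scal j2u)) := rfl
    rw [gm_X_pow_inv, gm_X_pow, hJ, hT.conj, hT.conj, hT.conj, ← hT.add, ← hT.add, J2_v0]
  lett := fun i k => by
    rw [gm_X_pow, gm_Z_pow, ← map_mul, hT.conj]
    exact hT.comm _ _

theorem CT.letter {T : V2 → GT} (hT : CT T) (r : ℕ) (al : Fin 2) (i k : ℕ) :
    (gm r).letter (T v0) al i k =
      T (toLA (dd ^ (al : ℕ) * loc (opX ^ i) * loc (scal zu ^ k) : GB) v0) := by
  rw [Gens.letter, gm_d, gm_X_pow, gm_Z_pow, ← map_pow, ← map_mul, ← map_mul, hT.conj]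

theorem trel_top (r : ℕ) : TRel (gm r) where
  tr := by
    intro al be ga i j l k k' k''
    simp only [List.forall_mem_cons, List.not_mem_nil, false_imp_iff, implies_true, and_true]
    have ha : ∀ (al : Fin 2) (i k : ℕ), (gm r).letter (gm r).a al i k = th _ :=
      ct_th.letter r
    have hb : ∀ (al : Fin 2) (i k : ℕ), (gm r).letter (gm r).b al i k = et nq _ :=
      ct_et.letter r
    rw [ha, ha, hb, hb, th_et nq_mul_self]
    exact ⟨cc_commute_th _ _ _ _, cc_commute_et _ _ _ _⟩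
  sy := by
    intro al be i j k k'
    have ha : ∀ (al : Fin 2) (i k : ℕ), (gm r).letter (gm r).a al i k = th _ :=
      ct_th.letter r
    have hb : ∀ (al : Fin 2) (i k : ℕ), (gm r).letter (gm r).b al i k = et nq _ :=
      ct_et.letter r
    rw [ha, ha, hb, hb, th_et nq_mul_self, th_et nq_mul_self, cc_symm]
  inv := by
    simp only [List.forall_mem_cons, List.not_mem_nil, false_imp_iff, implies_true, and_true]
    exact ⟨dd_mul_self, sgn_mul_self nq_mul_self⟩
  DS := by
    have hD : ∀ x, Commute (dd : GT) (BB x) := fun x => (act_commute_dd _).symm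
    have hS : ∀ x, Commute (sgn nq : GT) (BB x) := fun x => (act_commute_sgn _ _).symm
    have hD2 : Commute (dd : GT) (glob mq) := (glob_commute_dd _).symm
    have hS2 : Commute (sgn nq : GT) (glob mq) := (glob_commute_sgn mq_commute_nq).symm
    simp only [List.forall_mem_cons, List.not_mem_nil, false_imp_iff, implies_true, and_true]
    exact ⟨⟨hD _, hD _, hD _, hD _, hD _, hD _, hD _, hD _, hD _, (hD _).mul_right hD2, hD _,
      hD _⟩, hS _, hS _, hS _, hS _, hS _, hS _, hS _, hS _, hS _, (hS _).mul_right hS2, hS _,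
      hS _⟩
  DSs := by
    simp only [List.forall_mem_cons, List.not_mem_nil, false_imp_iff, implies_true, and_true]
    exact ⟨fun _ => (act_commute_dd _).symm, fun _ => (act_commute_sgn _ _).symm⟩
  Da := dd_commute_th _
  Sb := sgn_commute_et _ _
  aS := by
    change ⁅(th v0 : GT), sgn nq⁆ = ⁅(th v0 : GT), et nq v0⁆
    rw [th_sgn nq_mul_self, th_et nq_mul_self]
  Db := by
    change ⁅(dd : GT), et nq v0⁆ = ⁅(th v0 : GT), et nq v0⁆
    rw [dd_et nq_mul_self, th_et nq_mul_self]
  sb'c := by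
    have h : (gm r).sb' = glob nq := dd_sgn nq_mul_self
    rw [h]
    simp only [List.forall_mem_cons, List.not_mem_nil, false_imp_iff, implies_true, and_true]
    exact ⟨glob_commute_th _ _, glob_commute_et (Commute.refl _) _, glob_commute_dd _,
      glob_commute_sgn (Commute.refl _)⟩
  mc := by
    have hm : ∀ x, Commute (loc (tq (Multiplicative.ofAdd 1)) : GT) (BB x) := fun x =>
      (act_commute_loc _ _).symm
    simp only [List.forall_mem_cons, List.not_mem_nil, false_imp_iff, implies_true, and_true]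
    exact ⟨hm _, hm _, hm _, hm _, hm _, hm _, hm _, hm _, hm _, hm _, hm _,
      loc_commute_et _ _ _, loc_commute_sgn _ _⟩
  ms := fun i => (act_commute_loc _ _).symm
  msb := by
    have h : (gm r).sb' = glob nq := dd_sgn nq_mul_self
    rw [h]
    change cj (glob nq) (loc (tq (Multiplicative.ofAdd 1)) : GT) = _
    rw [cj, glob_conj_loc, nq_conj_tq, map_inv, map_inv]
    rfl
  mD := loc_commute_conj _ _
  ma := by
    change Commute (th v0 : GT) (loc (tq (Multiplicative.ofAdd 1)) *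
      (dd * loc (tq (Multiplicative.ofAdd 1)) * dd⁻¹))
    rw [loc_mul_conj]
    exact (glob_commute_th _ _).symm
  mph := by
    change (BB (glob frob) * glob mq) * loc (tq (Multiplicative.ofAdd 1)) *
      (BB (glob frob) * glob mq)⁻¹ = loc (tq (Multiplicative.ofAdd 1)) *
        loc (tq (Multiplicative.ofAdd 1))
    have h1 : (glob mq * loc (tq (Multiplicative.ofAdd 1)) * (glob mq)⁻¹ : GT) =
        loc (tq (Multiplicative.ofAdd 1)) * loc (tq (Multiplicative.ofAdd 1)) := by
      rw [glob_conj_loc, mq_conj_tq, map_mul]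
    have h2 : Commute (BB (glob frob))
        (loc (tq (Multiplicative.ofAdd 1)) * loc (tq (Multiplicative.ofAdd 1)) : GT) :=
      (act_commute_loc _ _).mul_right (act_commute_loc _ _)
    calc (BB (glob frob) * glob mq) * loc (tq (Multiplicative.ofAdd 1)) *
          (BB (glob frob) * glob mq)⁻¹ =
          BB (glob frob) * (glob mq * loc (tq (Multiplicative.ofAdd 1)) * (glob mq)⁻¹) *
            (BB (glob frob))⁻¹ := by group
      _ = _ := by rw [h1, h2.eq, mul_inv_cancel_right]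

/-- All relations hold in the model. -/
theorem rels_top (r : ℕ) : Rels (gm r) where
  base := brel_top r
  ca := ct_th.crel r
  cb := ct_et.crel r
  top := trel_top r

end

end Pool.Agent.H85.MG
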