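import Pool.Agent.H85.MG.Free2
import Pool.Agent.H85.MG.Model6
import Pool.Agent.H85.MG.Final

/-!
# helper85: freeness in the model
-/

namespace Pool.Agent.H85.MG

open scoped commutatorElement
open Mn Pool.Agent.H86.FS

noncomputable section

/-- The exponent. -/
def ex (i : ℕ) (j : Ix KK) : ℤ := 2 * ((j.2 (p0 ^ i)).val : ℤ)

/-- The first homomorphism. -/
def f1 (r : ℕ) : FreeGroup (Fin r) →* KKˣ := FreeGroup.lift fun i => su i

/-- The combinatorial form of the second homomorphism. -/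
def F0 (r : ℕ) : FreeGroup (Fin r) →* Mn (Multiplicative ℤ) KK :=
  FreeGroup.lift fun i => dg (fun j => Multiplicative.ofAdd (ex i j)) * act (mulK (su i))

/-- The second homomorphism. -/
def f2 (r : ℕ) : FreeGroup (Fin r) →* LA V2 :=
  toLA.comp ((Mn.map (zpowersHom (LA V0) opX)).comp (F0 r))

variable {r : ℕ}

theorem hF0 (i : Fin r) : F0 r (FreeGroup.of i) =
    dg (fun j => Multiplicative.ofAdd (ex i j)) *
      act ((mulK.comp (f1 r)) (FreeGroup.of i)) := by
  rw [F0, FreeGroup.lift_apply_of, MonoidHom.comp_apply, f1, FreeGroup.lift_apply_of]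

theorem f2_of (i : Fin r) : f2 r (FreeGroup.of i) =
    toLA (dg (fun j => opX ^ ex i j) * act (mulK (su i))) := by
  rw [f2, MonoidHom.comp_apply, MonoidHom.comp_apply, F0, FreeGroup.lift_apply_of]
  rfl

theorem opX_zpow (n : ℤ) (F : V0) (i : IF) : (opX ^ n) F i = ((pU i ^ n : KKˣ) : KK) * F i := by
  rw [opX, ← map_zpow]
  rfl

theorem p0u_zpow {n : ℤ} (h : p0u ^ n = 1) : n = 0 := by
  have := su_indep (r := 0) 0 n (by rw [h]; simp)
  exact this.2

/-- the base point of the fibre -/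
def e0 : IF := (true, 0)

theorem pU_e0 : pU e0 = p0u := by simp [pU, e0, zp_zero]

theorem opX_zpow_eq_one (g : Multiplicative ℤ) (h : zpowersHom (LA V0) opX g = 1) : g = 1 := by
  have h1 : (opX ^ g.toAdd) 1 e0 = (1 : V0) e0 := by
    rw [zpowersHom_apply] at h
    rw [h]
    rfl
  rw [opX_zpow, pU_e0, Pi.one_apply, mul_one] at h1
  have h2 : p0u ^ g.toAdd = 1 := Units.ext h1
  have h3 := p0u_zpow h2
  exact h3

theorem f2_eq_one {w : FreeGroup (Fin r)} (h : f2 r w = 1) : F0 r w = 1 :=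
  map_eq_one opX_zpow_eq_one (toLA_eq_one h)

theorem mulK_eq_one {u : KKˣ} (h : mulK u = 1) : u = 1 := by
  have h1 : mulK u 1 = (1 : LA KK) 1 := by rw [h]
  rw [mulK_apply, mul_one] at h1
  exact Units.ext h1

theorem f2_f1 {w : FreeGroup (Fin r)} (h : f2 r w = 1) :
    f1 r w = 1 ∧ Dl (F0 r) w = 0 := by
  have h1 := lvl_one (mulK.comp (f1 r)) (F0 r) _ hF0 (f2_eq_one h)
  exact ⟨mulK_eq_one h1.1, h1.2⟩

theorem f1_prod (w : FreeGroup (Fin r)) : ∃ n : Fin r → ℤ, f1 r w = ∏ i : Fin r, su i ^ n i := by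
  induction w using FreeGroup.induction_on with
  | C1 => exact ⟨0, by simp⟩
  | of i =>
    refine ⟨Pi.single i 1, ?_⟩
    rw [f1, FreeGroup.lift_apply_of, Finset.prod_eq_single i]
    · simp
    · intro j _ hj
      rw [Pi.single_eq_of_ne hj, zpow_zero]
    · intro h
      exact absurd (Finset.mem_univ i) h
  | inv_of i _ =>
    refine ⟨Pi.single i (-1), ?_⟩
    rw [map_inv, f1, FreeGroup.lift_apply_of, Finset.prod_eq_single i]
    · simp
    · intro j _ hj
      rw [Pi.single_eq_of_ne hj, zpow_zero]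
    · intro h
      exact absurd (Finset.mem_univ i) h
  | mul x y hx hy =>
    obtain ⟨n, hn⟩ := hx
    obtain ⟨m, hm⟩ := hy
    refine ⟨n + m, ?_⟩
    rw [map_mul, hn, hm, ← Finset.prod_mul_distrib]
    exact Finset.prod_congr rfl fun i _ => (zpow_add _ _ _).symm

theorem f1_indep {w : FreeGroup (Fin r)} {i j : ℕ} (h : (f1 r w : KK) * p0 ^ i = p0 ^ j) :
    f1 r w = 1 ∧ i = j := by
  obtain ⟨n, hn⟩ := f1_prod w
  have h1 : f1 r w * p0u ^ i = p0u ^ j := Units.ext h
  have h2 : p0u ^ ((i : ℤ) - j) * ∏ k : Fin r, su k ^ n k = 1 := by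
    rw [← hn, zpow_sub, zpow_natCast, zpow_natCast, mul_comm, ← mul_assoc, h1, mul_inv_cancel]
  obtain ⟨h3, h4⟩ := su_indep n _ h2
  refine ⟨?_, by omega⟩
  rw [hn, h3]
  simp

theorem two_val (k : ZMod 2) : 2 * ((k.val : ℤ)) = 1 - sgl ℤ k := by
  have h2 : ∀ x : ZMod 2, x = 0 ∨ x = 1 := by decide
  rcases h2 k with rfl | rfl
  · rw [sgl_zero]
    rfl
  · rw [sgl_one]
    rfl

theorem p0_zpow_ne (n : ℤ) : ((p0u ^ n : KKˣ) : KK) ≠ 1 + p0 + p0 ^ 2 := by
  intro h
  obtain ⟨k, rfl | rfl⟩ := Int.eq_nat_or_neg n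
  · rw [zpow_natCast, Units.val_pow_eq_pow_val, p0u_val] at h
    have h1 : (Polynomial.X ^ k : Polynomial (ZMod 2)) = 1 + Polynomial.X + Polynomial.X ^ 2 :=
      p0_aeval (by simpa using h)
    have h2 := congrArg (fun P => P.coeff 0) h1
    simp only [Polynomial.coeff_X_pow, Polynomial.coeff_add, Polynomial.coeff_one,
      Polynomial.coeff_X] at h2
    by_cases hk : k = 0
    · rw [hk] at h1
      have h3 := congrArg (fun P => P.coeff 1) h1
      simp [Polynomial.coeff_X_pow, Polynomial.coeff_one, Polynomial.coeff_X] at h3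
    · have hk' : ¬ (0 = k) := fun h => hk h.symm
      simp [hk'] at h2
  · rw [zpow_neg, zpow_natCast, Units.val_inv_eq_inv_val, Units.val_pow_eq_pow_val, p0u_val] at h
    have h0 := p0_ne_zero
    have h1 : p0 ^ k * (1 + p0 + p0 ^ 2) = 1 := by
      rw [← h, mul_inv_cancel₀ (pow_ne_zero k h0)]
    have h2 : (Polynomial.X ^ k * (1 + Polynomial.X + Polynomial.X ^ 2) :
        Polynomial (ZMod 2)) = 1 := p0_aeval (by simpa using h1)
    have h3 := congrArg (fun P => P.coeff (k + 2)) h2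
    simp only [Polynomial.coeff_X_pow_mul', Polynomial.coeff_add, Polynomial.coeff_one,
      Polynomial.coeff_X, Polynomial.coeff_X_pow] at h3
    simp at h3

/-- The vectors `v_i`. -/
def vi (i : ℕ) : V2 := fun j e =>
  1 + (pU e : KK) + ((pU e ^ (2 * (j.2 (p0 ^ i)).val) : KKˣ) : KK)

/-- The combinatorial form of the third homomorphism. -/
def F3 (r : ℕ) : FreeGroup (Fin r) →* Mn (Multiplicative ℚ) V2 :=
  FreeGroup.lift fun i => dg (fun j => if j.1 = 0 then Multiplicative.ofAdd (sgl ℚ (j.2 (vi i)))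
    else 1) * act (f2 r (FreeGroup.of i))

theorem hF3 (i : Fin r) : F3 r (FreeGroup.of i) =
    dg (fun j => if j.1 = 0 then Multiplicative.ofAdd (sgl ℚ (j.2 (vi i))) else 1) *
      act (f2 r (FreeGroup.of i)) := by
  rw [F3, FreeGroup.lift_apply_of]

/-- The coefficient function of an element. -/
theorem f2_vi (w : FreeGroup (Fin r)) (F : V2) (j : Ix KK) (e : IF) :
    f2 r w F j e = ((pU e ^ ((F0 r w).fn j).toAdd : KKˣ) : KK) *
      F (j.1, j.2 ∘ₗ ((mulK (f1 r w) : LA KK) : KK →ₗ[ZMod 2] KK)) e := by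
  have h1 := lvl_pm (mulK.comp (f1 r)) (F0 r) _ hF0 w j
  change (opX ^ ((F0 r w).fn j).toAdd) (F ((F0 r w).pm j)) e = _
  rw [h1, opX_zpow]
  rfl

theorem v_indep {w : FreeGroup (Fin r)} {i j : ℕ} (h : f2 r w (vi i) = vi j) :
    f2 r w = 1 ∧ i = j := by
  have key : ∀ k : Ix KK, k.2 (f1 r w * p0 ^ i) = k.2 (p0 ^ j) ∧
      ((F0 r w).fn k).toAdd = 0 := by
    intro k
    have h1 := congrFun (congrFun h k) e0
    rw [f2_vi, pU_e0] at h1
    have h2 : vi i (k.1, k.2 ∘ₗ ((mulK (f1 r w) : LA KK) : KK →ₗ[ZMod 2] KK)) e0 =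
        1 + p0 + p0 ^ (2 * (k.2 (f1 r w * p0 ^ i)).val) := by
      change 1 + (pU e0 : KK) + ((pU e0 ^ (2 * (k.2 (f1 r w * p0 ^ i)).val) : KKˣ) : KK) = _
      rw [pU_e0, Units.val_pow_eq_pow_val, p0u_val]
    have h3 : vi j k e0 = 1 + p0 + p0 ^ (2 * (k.2 (p0 ^ j)).val) := by
      change 1 + (pU e0 : KK) + ((pU e0 ^ (2 * (k.2 (p0 ^ j)).val) : KKˣ) : KK) = _
      rw [pU_e0, Units.val_pow_eq_pow_val, p0u_val]
    rw [h2, h3] at h1
    have hz : ∀ x : ZMod 2, x = 0 ∨ x = 1 := by decide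
    have hv : (1 : ZMod 2).val = 1 := rfl
    have h2K := two_KK
    rcases hz (k.2 (f1 r w * p0 ^ i)) with h4 | h4 <;> rcases hz (k.2 (p0 ^ j)) with h5 | h5 <;>
      rw [h4, h5] at h1 ⊢
    · refine ⟨rfl, p0u_zpow (Units.ext ?_)⟩
      simp only [ZMod.val_zero, mul_zero, pow_zero] at h1
      have h6 : (1 : KK) + p0 + 1 = p0 := by linear_combination h2K
      rw [h6] at h1
      exact mul_right_cancel₀ p0_ne_zero (by rw [h1, Units.val_one, one_mul])
    · exfalso
      simp only [ZMod.val_zero, mul_zero, pow_zero, hv, mul_one] at h1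
      have h6 : (1 : KK) + p0 + 1 = p0 := by linear_combination h2K
      rw [h6] at h1
      apply p0_zpow_ne (((F0 r w).fn k).toAdd + 1)
      rw [zpow_add, zpow_one, Units.val_mul, p0u_val]
      exact h1
    · exfalso
      simp only [ZMod.val_zero, mul_zero, pow_zero, hv, mul_one] at h1
      have h6 : (1 : KK) + p0 + 1 = p0 := by linear_combination h2K
      rw [h6] at h1
      apply p0_zpow_ne (1 - ((F0 r w).fn k).toAdd)
      rw [zpow_sub, zpow_one, Units.val_mul, p0u_val, mul_comm]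
      exact (Units.inv_mul_eq_iff_eq_mul _).2 h1.symm
    · refine ⟨rfl, p0u_zpow (Units.ext ?_)⟩
      have h7 : (1 : KK) + p0 + p0 ^ (2 * (1 : ZMod 2).val) ≠ 0 := by
        rw [hv]
        exact aeval_ne (P := 1 + Polynomial.X + Polynomial.X ^ 2) (by simp) |> fun h => by
          simpa using h
      exact mul_right_cancel₀ h7 (by rw [h1, Units.val_one, one_mul])
  have h1 : (f1 r w : KK) * p0 ^ i = p0 ^ j := by
    rw [← sub_eq_zero, ← Module.forall_dual_apply_eq_zero_iff (ZMod 2)]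
    intro ξ
    rw [map_sub, sub_eq_zero]
    exact (key (0, ξ)).1
  obtain ⟨h2, h3⟩ := f1_indep h1
  refine ⟨?_, h3⟩
  have h4 : F0 r w = 1 := by
    refine ext' (fun k => (key k).2) (fun k => ?_)
    rw [lvl_pm (mulK.comp (f1 r)) (F0 r) _ hF0 w k, MonoidHom.comp_apply, h2, map_one]
    rfl
  rw [f2, MonoidHom.comp_apply, MonoidHom.comp_apply, h4, map_one, map_one]

end

end Pool.Agent.H85.MG
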