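import Pool.Agent.H85.MG.Free3

/-!
# helper85: the words in the model, and the kernel
-/

namespace Pool.Agent.H85.MG

open scoped commutatorElement
open Mn Pool.Agent.H86.FS

noncomputable section

variable {r : ℕ}

theorem gm_XX (r : ℕ) : (gm r).XX = BB (glob opX) := by
  have h : (gm r).XX = BB (loc opX * (dd * loc opX * dd⁻¹)) := by
    rw [map_mul, map_mul, map_mul, map_inv]
    rfl
  rw [h, loc_mul_conj]

theorem sp_conj_opX (k : ZMod 2) : opX * (sp opS k * opX * (sp opS k)⁻¹)⁻¹ =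
    opX ^ (2 * (k.val : ℤ)) := by
  have h2 : ∀ x : ZMod 2, x = 0 ∨ x = 1 := by decide
  rcases h2 k with rfl | rfl
  · simp [sp_zero]
  · have h1 : (1 : ZMod 2).val = 1 := rfl
    rw [sp_one, opS_opX, inv_inv, h1]
    norm_num
    exact (sq opX).symm

theorem gm_bi (i : Fin r) : (gm r).bi i = BB (dg fun j => opX ^ ex i j) := by
  have ht : (gm r).t = BB (act (mulK p0u)) := rfl
  rw [Gens.bi, gm_XX, gm_rho, ht, ← map_pow, ← cj_map, ← map_inv, ← map_mul, ← cj_map]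
  congr 1
  have h1 : (glob opX * (cj (cc opS 1 1) (glob opX))⁻¹ : GB) =
      dg fun j => opX ^ (2 * ((j.2 1).val : ℤ)) := by
    refine ext' (fun j => ?_) (fun j => rfl)
    have h2 : ∀ x : ZMod 2, x * x = x := by decide
    have h3 : (glob opX * (cj (cc opS 1 1) (glob opX))⁻¹ : GB).fn j =
        opX * (sp opS (j.2 1 * j.2 1) * opX * (sp opS (j.2 1 * j.2 1))⁻¹)⁻¹ := rfl
    rw [h3, h2, sp_conj_opX]
    rfl
  rw [h1, ← map_pow, ← map_pow]
  change pp (ixq _) * dg _ * (pp (ixq _))⁻¹ = _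
  rw [pp_conj_dg]
  congr 1
  funext j
  change opX ^ (2 * ((j.2 ((mulK (p0u ^ (i : ℕ))) 1)).val : ℤ)) = _
  rw [mulK_apply, mul_one, Units.val_pow_eq_pow_val, p0u_val]
  rfl

/-- the constant vector -/
def w0 : V2 := fun _ _ => 1

theorem vi_eq (i : Fin r) : w0 + toLA (glob opX : GB) w0 + toLA (dg fun j => opX ^ ex i j : GB) w0 =
    vi i := by
  funext j e
  change 1 + (pU e : KK) * 1 + (opX ^ ex i j) 1 e = _
  rw [mul_one, opX_zpow, Pi.one_apply, mul_one]
  change 1 + (pU e : KK) + ((pU e ^ (2 * ((j.2 (p0 ^ (i : ℕ))).val : ℤ)) : KKˣ) : KK) = vi i j e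
  rw [vi]
  congr 2

theorem CT.word {T : V2 → GT} (hT : CT T) (i : Fin r) :
    (T v0 * cj (gm r).d (T v0)) * cj (gm r).XX (T v0 * cj (gm r).d (T v0)) *
      cj ((gm r).bi i) (T v0 * cj (gm r).d (T v0)) = T (vi i) := by
  rw [gm_d, hT.conj, ← hT.add, toLA_dd_v0, gm_XX, gm_bi]
  change T w0 * cj (BB (glob opX)) (T w0) * cj (BB (dg fun j => opX ^ ex i j)) (T w0) = _
  rw [hT.conj, hT.conj, ← hT.add, ← hT.add, vi_eq]

theorem gm_Ai (i : Fin r) : (gm r).Ai i = th (vi i) := ct_th.word i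
theorem gm_Bi (i : Fin r) : (gm r).Bi i = et nq (vi i) := ct_et.word i

theorem sp_conj_tq (k : ZMod 2) (a : ℚ) :
    sp nq k * tq (Multiplicative.ofAdd a) * (sp nq k)⁻¹ =
      tq (Multiplicative.ofAdd (sgl ℚ k * a)) := by
  have h2 : ∀ x : ZMod 2, x = 0 ∨ x = 1 := by decide
  rcases h2 k with rfl | rfl
  · simp [sp_zero, sgl_zero]
  · rw [sp_one, nq_conj_tq, sgl_one, neg_one_mul]
    rfl

theorem gm_mi (i : Fin r) : (gm r).mi i =
    dg fun j => if j.1 = 0 then tq (Multiplicative.ofAdd (sgl ℚ (j.2 (vi i)))) else 1 := by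
  have hm : (gm r).m = loc (tq (Multiplicative.ofAdd 1)) := rfl
  rw [Gens.mi, gm_Ai, gm_Bi, th_et nq_mul_self, hm]
  refine ext' (fun j => ?_) (fun j => rfl)
  have h2 : ∀ x : ZMod 2, x * x = x := by decide
  have h3 : (cj (cc nq (vi i) (vi i)) (loc (tq (Multiplicative.ofAdd 1))) : GT).fn j =
        sp nq (j.2 (vi i) * j.2 (vi i)) * (if j.1 = 0 then tq (Multiplicative.ofAdd 1) else 1) *
          (sp nq (j.2 (vi i) * j.2 (vi i)))⁻¹ := rfl
  rw [h3, h2, dg_fn]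
  by_cases h : j.1 = 0
  · rw [if_pos h, if_pos h, sp_conj_tq, mul_one]
  · rw [if_neg h, if_neg h, mul_one, mul_inv_cancel]

theorem gm_xi (i : Fin r) : (gm r).xi i = Mn.map tq (F3 r (FreeGroup.of i)) := by
  have hs : (gm r).s i = BB (act (mulK (su i))) := rfl
  rw [Gens.xi, gm_mi, gm_bi, hs, mul_assoc, ← map_mul BB, hF3, map_mul (Mn.map tq), f2_of]
  congr 1
  · refine ext' (fun j => ?_) (fun j => rfl)
    change (if j.1 = 0 then tq (Multiplicative.ofAdd (sgl ℚ (j.2 (vi i)))) else 1) =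
      tq (if j.1 = 0 then Multiplicative.ofAdd (sgl ℚ (j.2 (vi i))) else 1)
    split
    · rfl
    · rw [map_one]
  · exact ext' (fun _ => (map_one tq).symm) (fun _ => rfl)

theorem lift_xi : FreeGroup.lift (gm r).xi = (Mn.map tq).comp (F3 r) := by
  apply FreeGroup.ext_hom
  intro i
  rw [FreeGroup.lift_apply_of, gm_xi]
  rfl

theorem tq_eq_one (a : Multiplicative ℚ) (h : tq a = 1) : a = 1 := by
  have h1 : tq a 0 = (1 : Equiv.Perm ℚ) 0 := by rw [h]
  rw [tq_apply, add_zero] at h1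
  exact h1

/-- The kernel in the model. -/
theorem ker_model (w : FreeGroup (Fin r)) (hw : FreeGroup.lift (gm r).xi w = 1) :
    w ∈ derivedSeries (FreeGroup (Fin r)) 3 := by
  rw [lift_xi, MonoidHom.comp_apply] at hw
  have hw1 : F3 r w = 1 := map_eq_one tq_eq_one hw
  obtain ⟨hw2, hw3⟩ := lvl_one (f2 r) (F3 r) _ hF3 hw1
  let _ : DistribMulAction KKˣ (FD KK ℤ) := DistribMulAction.compHom _ mulK
  refine magnus3 (f1 r) ?_ (Dl (F0 r)) ?_ ?_ (f2 r) ?_ (Dl (F3 r)) ?_ ?_ w hw2 hw3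
  · intro n hn
    have h1 : p0u ^ (0 : ℤ) * ∏ i : Fin r, su i ^ n i = 1 := by
      rw [zpow_zero, one_mul, ← hn, Finsupp.prod_fintype _ _ fun i => zpow_zero _]
      exact Finset.prod_congr rfl fun i _ => by rw [f1, FreeGroup.lift_apply_of]
    exact DFunLike.coe_injective (su_indep _ _ h1).1
  · exact Dl_mul (mulK.comp (f1 r)) (F0 r) _ hF0
  · intro n hn
    refine chr_indep' ℤ (fun p : (f1 r).range × Fin r => ((p.1 : KKˣ) : KK) * p0 ^ (p.2 : ℕ))
      ?_ ?_ n ?_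
    · rintro ⟨⟨_, w, rfl⟩, i⟩ ⟨⟨_, w', rfl⟩, j⟩ h
      have h1 : (f1 r (w'⁻¹ * w) : KK) * p0 ^ (i : ℕ) = p0 ^ (j : ℕ) := by
        rw [map_mul, map_inv, Units.val_mul, mul_assoc]
        exact (Units.inv_mul_eq_iff_eq_mul _).2 h
      obtain ⟨h2, h3⟩ := f1_indep h1
      rw [map_mul, map_inv, inv_mul_eq_one] at h2
      exact Prod.ext (Subtype.ext h2.symm) (Fin.ext h3)
    · intro p
      exact mul_ne_zero (Units.ne_zero _) (pow_ne_zero _ p0_ne_zero)
    · intro x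
      have h1 := congrArg (FD.ev (L := ℤ) x) hn
      rw [map_finsuppSum, map_zero] at h1
      rw [← h1]
      refine Finsupp.sum_congr fun p _ => ?_
      rw [map_zsmul, smul_eq_mul, Int.cast_id]
      congr 1
      rw [← two_val]
      change _ = Dl (F0 r) (FreeGroup.of p.2)
        (x ∘ₗ ((mulK (p.1 : KKˣ) : LA KK) : KK →ₗ[ZMod 2] KK))
      rw [Dl_of (mulK.comp (f1 r)) (F0 r) _ hF0]
      rfl
  · intro v hv
    exact f2_f1 hv
  · exact Dl_mul (f2 r) (F3 r) _ hF3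
  · intro n hn
    refine chr_indep ℚ (fun p : (f2 r).range × Fin r => (p.1 : LA V2) (vi p.2)) ?_ n ?_
    · rintro ⟨⟨_, w, rfl⟩, i⟩ ⟨⟨_, w', rfl⟩, j⟩ h
      have h1 : f2 r (w'⁻¹ * w) (vi i) = vi j := by
        rw [map_mul, map_inv]
        change (f2 r w').symm (f2 r w (vi i)) = vi j
        rw [LinearEquiv.symm_apply_eq]
        exact h
      obtain ⟨h2, h3⟩ := v_indep h1
      rw [map_mul, map_inv, inv_mul_eq_one] at h2
      exact Prod.ext (Subtype.ext h2.symm) (Fin.ext h3)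
    · intro x
      have h1 := congrArg (FD.ev (L := ℚ) x) hn
      rw [map_finsuppSum, map_zero] at h1
      rw [← h1]
      refine Finsupp.sum_congr fun p _ => ?_
      rw [map_zsmul, zsmul_eq_mul]
      congr 1
      change _ = Dl (F3 r) (FreeGroup.of p.2) (x ∘ₗ ((p.1 : LA V2) : V2 →ₗ[ZMod 2] V2))
      rw [Dl_of (f2 r) (F3 r) _ hF3]
      rfl

/-- The model theorem. -/
theorem model (r : ℕ) : ∃ (G' : Type) (_ : Group G') (g' : Gens G' r), Rels g' ∧
    ∀ w : FreeGroup (Fin r), FreeGroup.lift g'.xi w = 1 →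
      w ∈ derivedSeries (FreeGroup (Fin r)) 3 :=
  ⟨GT, inferInstance, gm r, rels_top r, ker_model⟩

end

end Pool.Agent.H85.MG
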