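import Mathlib

/-!
# helper85: the Magnus embedding criterion

`F` is the free group on `α`, `f : F →* G` a homomorphism, `D : F → A` a crossed homomorphism to an
abelian group on which `G` acts. If the elements `g • D (x_i)`, `g` in the range of `f`, are
independent over `ℤ`, then every `w` with `f w = 1` and `D w = 0` lies in `[K, K]`, `K = ker f`.
-/

namespace Pool.Agent.H85.MG

open Subgroup

section Magnus

variable {α G A : Type*} [Group G] [AddCommGroup A] [DistribMulAction G A]

/-- Magnus: the kernel of the homomorphism to `A ⋊ G` given by `(D, f)` is in `[K, K]`. -/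
theorem magnus (f : FreeGroup α →* G) (D : FreeGroup α → A)
    (hD : ∀ x y, D (x * y) = D x + f x • D y)
    (hind : ∀ n : f.range × α →₀ ℤ,
      (n.sum fun p k => k • ((p.1 : G) • D (FreeGroup.of p.2))) = 0 → n = 0)
    (w : FreeGroup α) (hw : f w = 1) (hw' : D w = 0) : w ∈ ⁅f.ker, f.ker⁆ := by
  classical
  -- a section with value one at one
  have hsec : ∀ g : f.range, ∃ x : FreeGroup α, f x = (g : G) := fun g => g.2
  choose s0 hs0 using hsec
  let s : f.range → FreeGroup α := fun g => if g = 1 then 1 else s0 g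
  have hs : ∀ g : f.range, f (s g) = (g : G) := by
    intro g
    by_cases h : g = 1
    · have : s g = 1 := if_pos h
      rw [this, h, map_one]
      rfl
    · have : s g = s0 g := if_neg h
      rw [this, hs0]
  have hs1 : s 1 = 1 := if_pos rfl
  let r : FreeGroup α → f.range := fun x => ⟨f x, ⟨x, rfl⟩⟩
  have hr : ∀ x y, r (x * y) = r x * r y := fun x y => Subtype.ext (map_mul f x y)
  have hr1 : r 1 = 1 := Subtype.ext (map_one f)
  -- the Schreier elements
  have hker : ∀ (g : f.range) (x : FreeGroup α), s g * x * (s (g * r x))⁻¹ ∈ f.ker := by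
    intro g x
    rw [MonoidHom.mem_ker, map_mul, map_mul, map_inv, hs, hs]
    change (g : G) * f x * ((g : G) * f x)⁻¹ = 1
    group
  let κ : f.range → FreeGroup α → Abelianization f.ker := fun g x =>
    Abelianization.of ⟨s g * x * (s (g * r x))⁻¹, hker g x⟩
  have hκmul : ∀ g x y, κ g (x * y) = κ g x * κ (g * r x) y := by
    intro g x y
    change Abelianization.of _ = Abelianization.of _ * Abelianization.of _
    rw [← map_mul]
    congr 1
    apply Subtype.ext
    change s g * (x * y) * (s (g * r (x * y)))⁻¹ =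
      (s g * x * (s (g * r x))⁻¹) * (s (g * r x) * y * (s (g * r x * r y))⁻¹)
    rw [hr, ← mul_assoc g]
    group
  have hκone : ∀ g, κ g 1 = 1 := by
    intro g
    have h := hκmul g 1 1
    rw [mul_one, hr1, mul_one] at h
    exact (mul_eq_left.1 h.symm)
  -- the homomorphism on vectors
  let Φ : (f.range × α →₀ ℤ) →+ Additive (Abelianization f.ker) :=
    Finsupp.liftAddHom (fun p => (zmultiplesHom _ (Additive.ofMul (κ p.1 (FreeGroup.of p.2)))))
  have hΦs : ∀ (g : f.range) (i : α),
      Φ (Finsupp.single (g, i) 1) = Additive.ofMul (κ g (FreeGroup.of i)) := by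
    intro g i
    simp [Φ]
  let sh : f.range → (f.range × α →₀ ℤ) →+ (f.range × α →₀ ℤ) := fun g =>
    Finsupp.mapDomain.addMonoidHom (fun p => (g * p.1, p.2))
  have hshs : ∀ (g h : f.range) (i : α) (k : ℤ),
      sh g (Finsupp.single (h, i) k) = Finsupp.single (g * h, i) k := by
    intro g h i k
    simp [sh]
  have hshmul : ∀ (g h : f.range) (n), sh (g * h) n = sh g (sh h n) := by
    intro g h n
    simp only [sh, Finsupp.mapDomain.addMonoidHom_apply]
    rw [← Finsupp.mapDomain_comp]
    congr 1
    funext p
    simp [mul_assoc]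
  let ev : (f.range × α →₀ ℤ) →+ A :=
    Finsupp.liftAddHom (fun p => (zmultiplesHom A ((p.1 : G) • D (FreeGroup.of p.2))))
  have hev : ∀ n, ev n = n.sum fun p k => k • ((p.1 : G) • D (FreeGroup.of p.2)) := by
    intro n
    simp only [ev, Finsupp.liftAddHom_apply]
    rfl
  have hevs : ∀ (g : f.range) (i : α) (k : ℤ),
      ev (Finsupp.single (g, i) k) = k • ((g : G) • D (FreeGroup.of i)) := by
    intro g i k
    simp [ev]
  have hevsh : ∀ (g : f.range) (n), ev (sh g n) = (g : G) • ev n := by
    intro g n
    induction n using Finsupp.induction_linear with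
    | zero => simp
    | add x y hx hy => rw [map_add, map_add, map_add, hx, hy, smul_add]
    | single p k =>
      obtain ⟨h, i⟩ := p
      rw [hshs, hevs, hevs]
      change k • (((g : G) * (h : G)) • D (FreeGroup.of i)) = _
      rw [mul_smul, smul_comm k (g : G)]
  have hD1 : D 1 = 0 := by
    have h := hD 1 1
    rw [mul_one, map_one, one_smul] at h
    exact left_eq_add.1 h
  -- the main induction
  have main : ∀ x : FreeGroup α, ∃ n : f.range × α →₀ ℤ, ev n = D x ∧
      ∀ g, Additive.ofMul (κ g x) = Φ (sh g n) := by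
    intro x
    induction x using FreeGroup.induction_on with
    | C1 =>
      refine ⟨0, by rw [map_zero, hD1], fun g => ?_⟩
      rw [map_zero, map_zero, hκone]
      rfl
    | of i =>
      refine ⟨Finsupp.single (1, i) 1, ?_, fun g => ?_⟩
      · rw [hevs, one_smul]
        change (1 : G) • _ = _
        rw [one_smul]
      · rw [hshs, mul_one, hΦs]
    | inv_of i ih =>
      refine ⟨-Finsupp.single (r (FreeGroup.of i)⁻¹, i) 1, ?_, fun g => ?_⟩
      · rw [map_neg, hevs, one_smul]
        have h := hD (FreeGroup.of i)⁻¹ (FreeGroup.of i)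
        rw [inv_mul_cancel, hD1] at h
        change -(f (FreeGroup.of i)⁻¹ • D (FreeGroup.of i)) = _
        exact neg_eq_of_add_eq_zero_left h.symm
      · rw [map_neg, map_neg, hshs, hΦs]
        have h := hκmul g (FreeGroup.of i)⁻¹ (FreeGroup.of i)
        rw [inv_mul_cancel, hκone] at h
        rw [← ofMul_inv]
        congr 1
        exact eq_inv_of_mul_eq_one_left h.symm
    | mul x y ihx ihy =>
      obtain ⟨n, hn1, hn2⟩ := ihx
      obtain ⟨m, hm1, hm2⟩ := ihy
      refine ⟨n + sh (r x) m, ?_, fun g => ?_⟩
      · rw [map_add, hevsh, hn1, hm1, hD]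
      · rw [map_add, map_add, ← hshmul, ← hn2, ← hm2, hκmul, ofMul_mul]
  obtain ⟨n, hn1, hn2⟩ := main w
  rw [hw', hev] at hn1
  have hn0 := hind n hn1
  have h1 := hn2 1
  rw [hn0, map_zero, map_zero] at h1
  have hrw : r w = 1 := Subtype.ext hw
  have h2 : κ 1 w = 1 := h1
  have h3 : Abelianization.of (⟨w, hw⟩ : f.ker) = 1 := by
    rw [← h2]
    change _ = Abelianization.of _
    congr 1
    apply Subtype.ext
    change w = s 1 * w * (s (1 * r w))⁻¹
    rw [hrw, one_mul, hs1]
    group
  have h4 : (⟨w, hw⟩ : f.ker) ∈ commutator f.ker := by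
    rw [← Abelianization.ker_of]
    exact h3
  -- push forward to the free group
  have h5 : (commutator f.ker).map f.ker.subtype = ⁅f.ker, f.ker⁆ := by
    rw [commutator_def, map_commutator, ← MonoidHom.range_eq_map, Subgroup.range_subtype]
  rw [← h5]
  exact ⟨⟨w, hw⟩, h4, rfl⟩

end Magnus

end Pool.Agent.H85.MG
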