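import Mathlib

/-!
# helper85: the model for the embedding theorem: monomial operators

`Ix V` is the index set: pairs of a bit and a linear form on the `ZMod 2`-module `V`.
`Mn G V` is the group of monomial operators over the group `G`: the element `a` acts on functions by
`F ↦ (i ↦ a.fn i (F (a.pm i)))`.
-/

namespace Pool.Agent.H85.MG

/-- The index set. -/
abbrev Ix (V : Type*) [AddCommGroup V] [Module (ZMod 2) V] : Type _ :=
  ZMod 2 × (V →ₗ[ZMod 2] ZMod 2)

/-- The linear automorphisms. -/
abbrev LA (V : Type*) [AddCommGroup V] [Module (ZMod 2) V] : Type _ := V ≃ₗ[ZMod 2] V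

/-- Monomial operators over the group `G`. -/
structure Mn (G : Type*) (V : Type*) [AddCommGroup V] [Module (ZMod 2) V] where
  /-- coefficients -/
  fn : Ix V → G
  /-- permutation -/
  pm : Equiv.Perm (Ix V)

namespace Mn

section ext
variable {G V : Type*} [AddCommGroup V] [Module (ZMod 2) V]

theorem ext' {a b : Mn G V} (h1 : ∀ i, a.fn i = b.fn i) (h2 : ∀ i, a.pm i = b.pm i) : a = b := by
  obtain ⟨f, p⟩ := a
  obtain ⟨g, q⟩ := b
  have h3 : f = g := funext h1
  have h4 : p = q := Equiv.ext h2
  rw [h3, h4]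

end ext

variable {G G' V : Type*} [Group G] [Group G'] [AddCommGroup V] [Module (ZMod 2) V]

instance : Mul (Mn G V) := ⟨fun a b => ⟨fun i => a.fn i * b.fn (a.pm i), a.pm.trans b.pm⟩⟩
instance : One (Mn G V) := ⟨⟨fun _ => 1, Equiv.refl _⟩⟩
instance : Inv (Mn G V) := ⟨fun a => ⟨fun i => (a.fn (a.pm.symm i))⁻¹, a.pm.symm⟩⟩

@[simp] theorem mul_fn (a b : Mn G V) (i : Ix V) : (a * b).fn i = a.fn i * b.fn (a.pm i) := rfl
@[simp] theorem mul_pm (a b : Mn G V) (i : Ix V) : (a * b).pm i = b.pm (a.pm i) := rfl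
@[simp] theorem one_fn (i : Ix V) : (1 : Mn G V).fn i = 1 := rfl
@[simp] theorem one_pm (i : Ix V) : (1 : Mn G V).pm i = i := rfl
@[simp] theorem inv_fn (a : Mn G V) (i : Ix V) : (a⁻¹).fn i = (a.fn (a.pm.symm i))⁻¹ := rfl
@[simp] theorem inv_pm (a : Mn G V) (i : Ix V) : (a⁻¹).pm i = a.pm.symm i := rfl

instance : Group (Mn G V) :=
  Group.ofLeftAxioms
    (fun _ _ _ => ext' (fun i => by simp [mul_assoc]) (fun i => by simp))
    (fun _ => ext' (fun i => by simp) (fun i => by simp))
    (fun _ => ext' (fun i => by simp) (fun i => by simp))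

/-- Diagonal operators. -/
def dg : (Ix V → G) →* Mn G V where
  toFun f := ⟨f, Equiv.refl _⟩
  map_one' := rfl
  map_mul' _ _ := ext' (fun _ => rfl) (fun _ => rfl)

/-- Pure permutations. -/
def pp (π : Equiv.Perm (Ix V)) : Mn G V := ⟨fun _ => 1, π⟩

@[simp] theorem dg_fn (f : Ix V → G) (i : Ix V) : (dg f).fn i = f i := rfl
@[simp] theorem dg_pm (f : Ix V → G) (i : Ix V) : (dg f).pm i = i := rfl
@[simp] theorem pp_fn (π : Equiv.Perm (Ix V)) (i : Ix V) : (pp π : Mn G V).fn i = 1 := rfl
@[simp] theorem pp_pm (π : Equiv.Perm (Ix V)) (i : Ix V) : (pp π : Mn G V).pm i = π i := rfl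

/-- Functoriality in the group. -/
def map (φ : G →* G') : Mn G V →* Mn G' V where
  toFun a := ⟨fun i => φ (a.fn i), a.pm⟩
  map_one' := ext' (fun i => by simp) (fun i => rfl)
  map_mul' a b := ext' (fun i => by simp) (fun i => rfl)

@[simp] theorem map_fn (φ : G →* G') (a : Mn G V) (i : Ix V) : (map φ a).fn i = φ (a.fn i) := rfl
@[simp] theorem map_pm (φ : G →* G') (a : Mn G V) (i : Ix V) : (map φ a).pm i = a.pm i := rfl

/-- Monomial operators over the linear automorphisms of `W` act on functions with values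
in `W`. -/
def toLA {W : Type*} [AddCommGroup W] [Module (ZMod 2) W] : Mn (LA W) V →* LA (Ix V → W) where
  toFun a :=
    { toFun := fun F i => a.fn i (F (a.pm i))
      invFun := fun F i => (a⁻¹).fn i (F ((a⁻¹).pm i))
      left_inv := fun F => funext fun i => by simp
      right_inv := fun F => funext fun i => by simp
      map_add' := fun F F' => funext fun i => by simp
      map_smul' := fun c F => funext fun i => by simp }
  map_one' := by
    ext F i
    rfl
  map_mul' a b := by
    ext F i
    rfl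

@[simp] theorem toLA_apply {W : Type*} [AddCommGroup W] [Module (ZMod 2) W] (a : Mn (LA W) V)
    (F : Ix V → W) (i : Ix V) : toLA a F i = a.fn i (F (a.pm i)) := rfl

/-! ### The operators -/

/-- Shift of the bit. -/
def shift (v : V) : Equiv.Perm (Ix V) where
  toFun i := (i.1 + i.2 v, i.2)
  invFun i := (i.1 - i.2 v, i.2)
  left_inv i := by simp
  right_inv i := by simp

/-- `θ(v)` -/
def th (v : V) : Mn G V := pp (shift v)

/-- powers of `σ` with exponent in `ZMod 2` -/
def sp (σ : G) (k : ZMod 2) : G := σ ^ k.val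

/-- `η(v)` -/
def et (σ : G) (v : V) : Mn G V := dg fun i => sp σ (i.1 * i.2 v)

/-- the swap of the bit -/
def swp : Equiv.Perm (Ix V) where
  toFun i := (i.1 + 1, i.2)
  invFun i := (i.1 - 1, i.2)
  left_inv i := by simp
  right_inv i := by simp

/-- `d` -/
def dd : Mn G V := pp swp

/-- the sign -/
def sgn (σ : G) : Mn G V := dg fun i => sp σ i.1

/-- the action of linear automorphisms on the index set -/
def ixq (q : LA V) : Equiv.Perm (Ix V) where
  toFun i := (i.1, i.2 ∘ₗ (q : V →ₗ[ZMod 2] V))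
  invFun i := (i.1, i.2 ∘ₗ (q.symm : V →ₗ[ZMod 2] V))
  left_inv i := Prod.ext rfl (by ext v; simp)
  right_inv i := Prod.ext rfl (by ext v; simp)

/-- `act(q)` -/
def act : LA V →* Mn G V where
  toFun q := pp (ixq q)
  map_one' := ext' (fun _ => rfl) (fun _ => rfl)
  map_mul' q q' := ext' (fun i => by simp) (fun _ => rfl)

/-- `loc(f)`: `f` on the part with bit `0` -/
def loc : G →* Mn G V where
  toFun f := dg fun i => if i.1 = 0 then f else 1
  map_one' := ext' (fun i => by simp) (fun _ => rfl)
  map_mul' f g := ext' (fun i => by by_cases h : i.1 = 0 <;> simp [h]) (fun _ => rfl)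

/-- `glob(f)`: `f` everywhere -/
def glob : G →* Mn G V where
  toFun f := dg fun _ => f
  map_one' := ext' (fun i => by simp) (fun _ => rfl)
  map_mul' f g := ext' (fun i => by simp) (fun _ => rfl)

end Mn

end Pool.Agent.H85.MG
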