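import Pool.Agent.H85.MG.Model1

/-!
# helper85: identities between the monomial operators
-/

namespace Pool.Agent.H85.MG

open scoped commutatorElement

namespace Mn

variable {G G' V : Type*} [Group G] [Group G'] [AddCommGroup V] [Module (ZMod 2) V]

theorem sp_zero (σ : G) : sp σ 0 = 1 := by simp [sp]
theorem sp_one (σ : G) : sp σ 1 = σ := by
  have : (1 : ZMod 2).val = 1 := rfl
  simp [sp, this]

theorem sp_add {σ : G} (hσ : σ * σ = 1) (k l : ZMod 2) : sp σ (k + l) = sp σ k * sp σ l := by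
  have h11 : (1 + 1 : ZMod 2) = 0 := by decide
  have h2 : ∀ x : ZMod 2, x = 0 ∨ x = 1 := by decide
  rcases h2 k with rfl | rfl <;> rcases h2 l with rfl | rfl
  · simp [sp_zero]
  · simp [sp_zero, sp_one]
  · simp [sp_zero, sp_one]
  · rw [h11, sp_zero, sp_one, hσ]

theorem sp_mul_self {σ : G} (hσ : σ * σ = 1) (k : ZMod 2) : sp σ k * sp σ k = 1 := by
  rw [← sp_add hσ, CharTwo.add_self_eq_zero, sp_zero]

theorem sp_inv {σ : G} (hσ : σ * σ = 1) (k : ZMod 2) : (sp σ k)⁻¹ = sp σ k :=
  inv_eq_of_mul_eq_one_left (sp_mul_self hσ k)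

theorem sp_comm (σ : G) (k l : ZMod 2) : Commute (sp σ k) (sp σ l) :=
  Commute.pow_pow_self σ _ _

theorem commute_sp {σ g : G} (h : Commute g σ) (k : ZMod 2) : Commute g (sp σ k) :=
  h.pow_right _

theorem pp_mul (π ρ : Equiv.Perm (Ix V)) : (pp π * pp ρ : Mn G V) = pp (π.trans ρ) :=
  ext' (fun i => by simp) (fun i => rfl)

/-- conjugation of a diagonal operator by a permutation -/
theorem pp_conj_dg (π : Equiv.Perm (Ix V)) (f : Ix V → G) :
    pp π * dg f * (pp π)⁻¹ = dg fun i => f (π i) := by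
  rw [mul_inv_eq_iff_eq_mul]
  exact ext' (fun i => by simp) (fun i => by simp)

theorem pp_mul_dg (π : Equiv.Perm (Ix V)) (f : Ix V → G) :
    pp π * dg f = dg (fun i => f (π i)) * pp π := by
  rw [← pp_conj_dg, inv_mul_cancel_right]

theorem dg_commute {f g : Ix V → G} (h : ∀ i, Commute (f i) (g i)) :
    Commute (dg f) (dg g) := by
  have h1 : Commute f g := by
    funext i
    exact h i
  exact h1.map dg

theorem pp_commute_dg {π : Equiv.Perm (Ix V)} {f : Ix V → G} (h : ∀ i, f (π i) = f i) :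
    Commute (pp π) (dg f) := by
  have h1 : pp π * dg f = dg f * pp π := by
    rw [pp_mul_dg]
    congr 2
    funext i
    exact h i
  exact h1

theorem pp_commute_pp {π ρ : Equiv.Perm (Ix V)} (h : ∀ i, ρ (π i) = π (ρ i)) :
    Commute (pp π : Mn G V) (pp ρ) :=
  ext' (fun i => by simp) (fun i => by simpa using h i)

/-! ### additivity -/

theorem th_zero : (th (0 : V) : Mn G V) = 1 :=
  ext' (fun i => rfl) (fun i => Prod.ext (by simp [th, shift]) rfl)

theorem th_add (v w : V) : (th (v + w) : Mn G V) = th v * th w :=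
  ext' (fun i => by simp [th]) (fun i => Prod.ext (by simp [th, shift, add_assoc]) rfl)

theorem et_zero (σ : G) : (et σ (0 : V) : Mn G V) = 1 :=
  ext' (fun i => by simp [et, sp_zero]) (fun i => rfl)

theorem et_add {σ : G} (hσ : σ * σ = 1) (v w : V) :
    (et σ (v + w) : Mn G V) = et σ v * et σ w :=
  ext' (fun i => by simp [et, mul_add, sp_add hσ]) (fun i => rfl)

theorem th_commute (v w : V) : Commute (th v : Mn G V) (th w) := by
  have h1 : (th v * th w : Mn G V) = th w * th v := by rw [← th_add, ← th_add, add_comm]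
  exact h1

theorem et_commute (σ : G) (v w : V) : Commute (et σ v : Mn G V) (et σ w) :=
  dg_commute fun _ => sp_comm σ _ _

theorem add_self_V (v : V) : v + v = 0 := by
  have h : (2 : ZMod 2) = 0 := by decide
  have h1 : (2 : ZMod 2) • v = v + v := by
    have : (2 : ZMod 2) = 1 + 1 := by decide
    rw [this, add_smul, one_smul]
  rw [← h1, h, zero_smul]

theorem th_mul_self (v : V) : (th v * th v : Mn G V) = 1 := by
  rw [← th_add, add_self_V, th_zero]

theorem et_mul_self {σ : G} (hσ : σ * σ = 1) (v : V) : (et σ v * et σ v : Mn G V) = 1 := by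
  rw [← et_add hσ, add_self_V, et_zero]

theorem th_inv (v : V) : (th v : Mn G V)⁻¹ = th v := inv_eq_of_mul_eq_one_left (th_mul_self v)
theorem et_inv {σ : G} (hσ : σ * σ = 1) (v : V) : (et σ v : Mn G V)⁻¹ = et σ v :=
  inv_eq_of_mul_eq_one_left (et_mul_self hσ v)

theorem dd_mul_self : (dd * dd : Mn G V) = 1 := by
  have h11 : (1 + 1 : ZMod 2) = 0 := by decide
  exact ext' (fun i => by simp [dd]) (fun i => Prod.ext (by simp [dd, swp, add_assoc, h11]) rfl)

theorem dd_inv : (dd : Mn G V)⁻¹ = dd := inv_eq_of_mul_eq_one_left dd_mul_self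

theorem sgn_mul_self {σ : G} (hσ : σ * σ = 1) : (sgn σ * sgn σ : Mn G V) = 1 :=
  ext' (fun i => by simp [sgn, sp_mul_self hσ]) (fun i => rfl)

theorem sgn_inv {σ : G} (hσ : σ * σ = 1) : (sgn σ : Mn G V)⁻¹ = sgn σ :=
  inv_eq_of_mul_eq_one_left (sgn_mul_self hσ)

/-! ### commutators -/

/-- the operator `σ^(x(v) x(w))` -/
def cc (σ : G) (v w : V) : Mn G V := dg fun i => sp σ (i.2 v * i.2 w)

theorem cc_symm (σ : G) (v w : V) : (cc σ v w : Mn G V) = cc σ w v := by
  rw [cc, cc]
  congr 1
  funext i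
  rw [mul_comm]

theorem cc_mul_self {σ : G} (hσ : σ * σ = 1) (v w : V) : (cc σ v w * cc σ v w : Mn G V) = 1 :=
  ext' (fun i => by simp [cc, sp_mul_self hσ]) (fun i => rfl)

theorem th_et {σ : G} (hσ : σ * σ = 1) (v w : V) :
    ⁅(th v : Mn G V), et σ w⁆ = cc σ v w := by
  have h1 : (th v * et σ w * (th v)⁻¹ : Mn G V) = cc σ v w * et σ w := by
    rw [th, et, pp_conj_dg, cc, ← map_mul]
    congr 1
    funext i
    simp only [Pi.mul_apply, shift, Equiv.coe_fn_mk]
    rw [← sp_add hσ]
    congr 1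
    ring
  rw [commutatorElement_def, h1, mul_inv_cancel_right]

theorem cc_self (σ : G) (v : V) : (cc σ v v : Mn G V) = dg fun i => sp σ (i.2 v) := by
  rw [cc]
  congr 1
  funext i
  have h2 : ∀ x : ZMod 2, x * x = x := by decide
  rw [h2]

theorem th_sgn {σ : G} (hσ : σ * σ = 1) (v : V) : ⁅(th v : Mn G V), sgn σ⁆ = cc σ v v := by
  have h1 : (th v * sgn σ * (th v)⁻¹ : Mn G V) = cc σ v v * sgn σ := by
    rw [cc_self, th, sgn, pp_conj_dg, ← map_mul]
    congr 1
    funext i
    simp only [Pi.mul_apply, shift, Equiv.coe_fn_mk]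
    rw [← sp_add hσ, add_comm]
  rw [commutatorElement_def, h1, mul_inv_cancel_right]

theorem dd_et {σ : G} (hσ : σ * σ = 1) (v : V) : ⁅(dd : Mn G V), et σ v⁆ = cc σ v v := by
  have h1 : (dd * et σ v * dd⁻¹ : Mn G V) = cc σ v v * et σ v := by
    rw [cc_self, dd, et, pp_conj_dg, ← map_mul]
    congr 1
    funext i
    simp only [Pi.mul_apply, swp, Equiv.coe_fn_mk]
    rw [← sp_add hσ]
    congr 1
    ring
  rw [commutatorElement_def, h1, mul_inv_cancel_right]

theorem dd_sgn {σ : G} (hσ : σ * σ = 1) : ⁅(dd : Mn G V), sgn σ⁆ = (glob σ : Mn G V) := by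
  have h1 : (dd * sgn σ * dd⁻¹ : Mn G V) = glob σ * sgn σ := by
    rw [dd, sgn, pp_conj_dg, glob]
    change _ = dg (fun _ => σ) * dg _
    rw [← map_mul]
    congr 1
    funext i
    simp only [Pi.mul_apply, swp, Equiv.coe_fn_mk]
    rw [add_comm, sp_add hσ, sp_one]
  rw [commutatorElement_def, h1, mul_inv_cancel_right]

theorem cc_commute_th (σ : G) (v w u : V) : Commute (cc σ v w : Mn G V) (th u) :=
  (pp_commute_dg fun _ => rfl).symm

theorem cc_commute_et (σ : G) (v w u : V) : Commute (cc σ v w : Mn G V) (et σ u) :=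
  dg_commute fun _ => sp_comm σ _ _

theorem cc_commute_sgn (σ : G) (v w : V) : Commute (cc σ v w : Mn G V) (sgn σ) :=
  dg_commute fun _ => sp_comm σ _ _

theorem cc_commute_dd (σ : G) (v w : V) : Commute (cc σ v w : Mn G V) dd :=
  (pp_commute_dg fun _ => rfl).symm

theorem dd_commute_th (v : V) : Commute (dd : Mn G V) (th v) :=
  pp_commute_pp (V := V) fun (i : Ix V) =>
    Prod.ext (show i.1 + 1 + i.2 v = i.1 + i.2 v + 1 by ring) rfl

theorem sgn_commute_et (σ : G) (v : V) : Commute (sgn σ : Mn G V) (et σ v) :=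
  dg_commute fun (_ : Ix V) => sp_comm σ _ _

/-! ### `glob` -/

theorem glob_commute_pp (f : G) (π : Equiv.Perm (Ix V)) : Commute (glob f : Mn G V) (pp π) :=
  (pp_commute_dg fun _ => rfl).symm

theorem glob_commute_dg {f : G} {g : Ix V → G} (h : ∀ i, Commute f (g i)) :
    Commute (glob f : Mn G V) (dg g) := dg_commute h

theorem glob_commute_th (f : G) (v : V) : Commute (glob f : Mn G V) (th v) := glob_commute_pp _ _
theorem glob_commute_dd (f : G) : Commute (glob f : Mn G V) dd := glob_commute_pp _ _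
theorem glob_commute_act (f : G) (q : LA V) : Commute (glob f : Mn G V) (act q) :=
  glob_commute_pp _ _

theorem glob_commute_et {f σ : G} (h : Commute f σ) (v : V) :
    Commute (glob f : Mn G V) (et σ v) := glob_commute_dg fun _ => commute_sp h _

theorem glob_commute_sgn {f σ : G} (h : Commute f σ) :
    Commute (glob f : Mn G V) (sgn σ) := glob_commute_dg fun _ => commute_sp h _

theorem glob_commute_cc {f σ : G} (h : Commute f σ) (v w : V) :
    Commute (glob f : Mn G V) (cc σ v w) := glob_commute_dg fun _ => commute_sp h _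

/-! ### `act` -/

theorem act_conj_th (q : LA V) (v : V) : (act q * th v * (act q)⁻¹ : Mn G V) = th (q v) := by
  rw [mul_inv_eq_iff_eq_mul]
  exact ext' (fun i => by simp [act, th]) (fun i => Prod.ext (by simp [act, th, shift, ixq]) rfl)

theorem act_conj_et (σ : G) (q : LA V) (v : V) :
    (act q * et σ v * (act q)⁻¹ : Mn G V) = et σ (q v) := by
  change pp (ixq q) * dg _ * (pp (ixq q))⁻¹ = _
  rw [pp_conj_dg]
  rfl

theorem act_commute_dd (q : LA V) : Commute (act q : Mn G V) dd :=
  pp_commute_pp fun _ => rfl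

theorem act_commute_sgn (σ : G) (q : LA V) : Commute (act q : Mn G V) (sgn σ) :=
  pp_commute_dg fun _ => rfl

theorem act_commute_loc (q : LA V) (f : G) : Commute (act q : Mn G V) (loc f) :=
  pp_commute_dg fun _ => rfl

/-! ### `loc` -/

theorem loc_commute_et (f σ : G) (v : V) : Commute (loc f : Mn G V) (et σ v) :=
  dg_commute fun (i : Ix V) => by
    by_cases h : i.1 = 0
    · simp [h, sp_zero]
    · simp [h]

theorem loc_commute_sgn (f σ : G) : Commute (loc f : Mn G V) (sgn σ) :=
  dg_commute fun (i : Ix V) => by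
    by_cases h : i.1 = 0
    · simp [h, sp_zero]
    · simp [h]

theorem glob_conj_loc (f g : G) :
    (glob f * loc g * (glob f)⁻¹ : Mn G V) = loc (f * g * f⁻¹) := by
  rw [mul_inv_eq_iff_eq_mul]
  exact ext' (fun i => by
    by_cases h : i.1 = 0 <;> simp [loc, glob, h]) (fun i => rfl)

theorem dd_conj_loc (f : G) :
    (dd * loc f * dd⁻¹ : Mn G V) = dg fun i => if i.1 = 0 then 1 else f := by
  change pp swp * dg _ * (pp swp)⁻¹ = _
  rw [pp_conj_dg]
  congr 1
  funext i
  have h2 : ∀ x : ZMod 2, x = 0 ∨ x = 1 := by decide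
  have h11 : (1 + 1 : ZMod 2) = 0 := by decide
  rcases h2 i.1 with h | h <;> simp [swp, h, h11]

theorem loc_commute_conj (f g : G) : Commute (loc f : Mn G V) (dd * loc g * dd⁻¹) := by
  rw [dd_conj_loc]
  exact dg_commute fun i => by by_cases h : i.1 = 0 <;> simp [h]

theorem loc_mul_conj (f : G) : (loc f * (dd * loc f * dd⁻¹) : Mn G V) = glob f := by
  rw [dd_conj_loc]
  exact ext' (fun i => by by_cases h : i.1 = 0 <;> simp [loc, glob, h]) (fun i => rfl)

theorem loc_commute_cc {f σ : G} (h : Commute f σ) (v w : V) :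
    Commute (loc f : Mn G V) (cc σ v w) :=
  dg_commute fun i => by
    by_cases h' : i.1 = 0
    · simpa [h'] using commute_sp h _
    · simp [h']

theorem glob_commute_loc {f g : G} (h : Commute f g) : Commute (glob f : Mn G V) (loc g) :=
  glob_commute_dg fun i => by
    by_cases h' : i.1 = 0
    · simpa [h'] using h
    · simp [h']

theorem glob_commute_conj {f g : G} (h : Commute f g) :
    Commute (glob f : Mn G V) (dd * loc g * dd⁻¹) := by
  have h1 := glob_commute_loc (V := V) h
  have h2 := glob_commute_dd (V := V) f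
  exact (h2.mul_right h1).mul_right h2.inv_right

end Mn

end Pool.Agent.H85.MG
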