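import Pool.Agent.H85.MG.Model2

/-!
# helper85: the concrete field and the fibre
-/

namespace Pool.Agent.H85.MG

open scoped commutatorElement

/-- The field. -/
abbrev KK : Type := AlgebraicClosure (RatFunc (ZMod 2))

noncomputable section

instance : CharP KK 2 :=
  charP_of_injective_algebraMap (algebraMap (ZMod 2) KK).injective 2

/-- The transcendental element. -/
def p0 : KK := algebraMap (RatFunc (ZMod 2)) KK RatFunc.X

theorem p0_trans : Transcendental (ZMod 2) p0 := by
  have h1 : Transcendental (ZMod 2) (RatFunc.X : RatFunc (ZMod 2)) := by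
    rw [← RatFunc.algebraMap_X]
    exact (transcendental_algebraMap_iff (RatFunc.algebraMap_injective (ZMod 2))).2
      (Polynomial.transcendental_X (ZMod 2))
  exact (transcendental_algebraMap_iff (algebraMap (RatFunc (ZMod 2)) KK).injective).2 h1

theorem p0_ne_zero : p0 ≠ 0 := by
  intro h
  have := p0_trans
  rw [h] at this
  exact this isAlgebraic_zero

/-- polynomial identities in `p0` are formal -/
theorem p0_aeval {P Q : Polynomial (ZMod 2)} (h : Polynomial.aeval p0 P = Polynomial.aeval p0 Q) :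
    P = Q :=
  (transcendental_iff_injective.1 p0_trans) h

theorem exists_zz : ∃ z : KK, z ^ 5 + z ^ 2 + 1 = 0 := by
  have h := IsAlgClosed.exists_root
    (Polynomial.X ^ 5 + Polynomial.X ^ 2 + 1 : Polynomial KK) (by
      have : (Polynomial.X ^ 5 + Polynomial.X ^ 2 + 1 : Polynomial KK).degree = 5 := by
        compute_degree!
      rw [this]
      decide)
  obtain ⟨z, hz⟩ := h
  refine ⟨z, ?_⟩
  simpa [Polynomial.IsRoot] using hz

/-- The root of unity. -/
def zz : KK := exists_zz.choose

theorem zz_rel : zz ^ 5 + zz ^ 2 + 1 = 0 := exists_zz.choose_spec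

theorem two_KK : (2 : KK) = 0 := CharTwo.two_eq_zero

theorem zz_ne_zero : zz ≠ 0 := by
  intro h
  have := zz_rel
  rw [h] at this
  simp at this

theorem zz_pow : zz ^ 31 = 1 := by
  have hz := zz_rel
  have h2 := two_KK
  linear_combination ((1)*zz^0 + (1)*zz^2 + (1)*zz^4 + (1)*zz^5 + (1)*zz^6 + (1)*zz^8 + (1)*zz^9 +
    (1)*zz^13 + (1)*zz^14 + (1)*zz^15 + (1)*zz^16 + (1)*zz^17 + (1)*zz^20 + (1)*zz^21 + (1)*zz^23 +
    (1)*zz^26) * hz + ((-1)*zz^0 + (-1)*zz^2 + (-1)*zz^4 + (-1)*zz^5 + (-1)*zz^6 + (-1)*zz^7 +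
    (-1)*zz^8 + (-1)*zz^9 + (-1)*zz^10 + (-1)*zz^11 + (-1)*zz^13 + (-1)*zz^14 + (-1)*zz^15 +
    (-1)*zz^16 + (-1)*zz^17 + (-1)*zz^18 + (-1)*zz^19 + (-1)*zz^20 + (-1)*zz^21 + (-1)*zz^22 +
    (-1)*zz^23 + (-1)*zz^25 + (-1)*zz^26 + (-1)*zz^28) * h2

/-! ### The fibre -/

/-- Index set of the fibre. -/
abbrev IF : Type := Bool × ZMod 31

/-- The fibre. -/
abbrev V0 : Type := IF → KK

/-- multiplication by a function with values in the units -/
def mulV {ι : Type*} : (ι → KKˣ) →* LA (ι → KK) where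
  toFun f :=
    { toFun := fun F i => f i * F i
      invFun := fun F i => ((f i)⁻¹ : KKˣ) * F i
      left_inv := fun F => funext fun i => by simp
      right_inv := fun F => funext fun i => by simp
      map_add' := fun F F' => funext fun i => by simp [mul_add]
      map_smul' := fun c F => funext fun i => by simp }
  map_one' := by
    ext F i
    simp
  map_mul' f g := by
    ext F i
    simp [mul_assoc]

@[simp] theorem mulV_apply {ι : Type*} (f : ι → KKˣ) (F : ι → KK) (i : ι) :
    mulV f F i = f i * F i := rfl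

/-- reindexing -/
def rei {ι : Type*} (e : Equiv.Perm ι) : LA (ι → KK) where
  toFun F i := F (e i)
  invFun F i := F (e.symm i)
  left_inv F := funext fun i => by simp
  right_inv F := funext fun i => by simp
  map_add' F F' := rfl
  map_smul' c F := rfl

@[simp] theorem rei_apply {ι : Type*} (e : Equiv.Perm ι) (F : ι → KK) (i : ι) :
    rei e F i = F (e i) := rfl

theorem smul_pow_two (c : ZMod 2) (x : KK) : (c • x) ^ 2 = c • x ^ 2 := by
  have h2 : ∀ x : ZMod 2, x = 0 ∨ x = 1 := by decide
  rcases h2 c with rfl | rfl <;> simp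

/-- pointwise Frobenius -/
def frob {ι : Type*} : LA (ι → KK) where
  toFun F i := F i ^ 2
  invFun F i := (frobeniusEquiv KK 2).symm (F i)
  left_inv F := funext fun i => (frobeniusEquiv KK 2).symm_apply_apply (F i)
  right_inv F := funext fun i => (frobeniusEquiv KK 2).apply_symm_apply (F i)
  map_add' F F' := funext fun i => add_pow_char (F i) (F' i) 2
  map_smul' c F := funext fun i => smul_pow_two c (F i)

@[simp] theorem frob_apply {ι : Type*} (F : ι → KK) (i : ι) :
    frob F i = F i ^ 2 := rfl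

theorem rei_conj_mulV {ι : Type*} (e : Equiv.Perm ι) (f : ι → KKˣ) :
    rei e * mulV f * (rei e)⁻¹ = mulV fun i => f (e i) := by
  rw [mul_inv_eq_iff_eq_mul]
  ext F i
  simp

theorem frob_conj_mulV {ι : Type*} (f : ι → KKˣ) :
    frob * mulV f * (frob)⁻¹ = mulV f * mulV f := by
  rw [mul_inv_eq_iff_eq_mul]
  ext F i
  simp
  ring

theorem frob_commute_rei {ι : Type*} (e : Equiv.Perm ι) : Commute (frob : LA (ι → KK)) (rei e) := by
  have h : (frob : LA (ι → KK)) * rei e = rei e * frob := by
    ext F i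
    simp
  exact h

theorem rei_mul {ι : Type*} (e e' : Equiv.Perm ι) : rei e * rei e' = rei (e.trans e') := by
  ext F i
  simp

theorem rei_one {ι : Type*} : rei (Equiv.refl ι) = 1 := by
  ext F i
  simp

theorem mulV_commute {ι : Type*} (f g : ι → KKˣ) : Commute (mulV f) (mulV g) :=
  (Commute.all f g).map mulV

/-- scalars -/
def scal {ι : Type*} (u : KKˣ) : LA (ι → KK) := mulV fun _ => u

@[simp] theorem scal_apply {ι : Type*} (u : KKˣ) (F : ι → KK) (i : ι) :
    scal u F i = u * F i := rfl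

theorem scal_commute_mulV {ι : Type*} (u : KKˣ) (f : ι → KKˣ) : Commute (scal u) (mulV f) :=
  mulV_commute _ _

theorem scal_commute_rei {ι : Type*} (u : KKˣ) (e : Equiv.Perm ι) :
    Commute (scal u) (rei e) := by
  have h : scal u * rei e = rei e * scal u := by
    ext F i
    simp
  exact h

/-! ### The operators on the fibre -/

/-- `p0` as a unit -/
def p0u : KKˣ := Units.mk0 p0 p0_ne_zero

/-- `z` as a unit -/
def zu : KKˣ := Units.mk0 zz zz_ne_zero

theorem zu_pow : zu ^ 31 = 1 := Units.ext (by simpa [zu] using zz_pow)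

/-- powers of `z` with exponent in `ZMod 31` -/
def zp (i : ZMod 31) : KKˣ := zu ^ i.val

theorem zp_zero : zp 0 = 1 := by simp [zp]

theorem zp_one : zp 1 = zu := by
  have h : (1 : ZMod 31).val = 1 := rfl
  rw [zp, h, pow_one]

theorem zp_add (i j : ZMod 31) : zp (i + j) = zp i * zp j := by
  rw [zp, zp, zp, ← pow_add, ZMod.val_add]
  conv_rhs => rw [← Nat.mod_add_div (i.val + j.val) 31]
  rw [pow_add, pow_mul, zu_pow, one_pow, mul_one]

theorem zp_neg (i : ZMod 31) : zp (-i) = (zp i)⁻¹ := by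
  rw [eq_inv_iff_mul_eq_one, ← zp_add, neg_add_cancel, zp_zero]

/-- the function `p` -/
def pU : IF → KKˣ := fun i => (if i.1 then p0u else p0u⁻¹) * zp i.2

/-- `X` -/
def opX : LA V0 := mulV pU

/-- the shift -/
def eY : Equiv.Perm IF where
  toFun i := (i.1, i.2 - 1)
  invFun i := (i.1, i.2 + 1)
  left_inv i := by simp
  right_inv i := by simp

/-- the involution -/
def eS : Equiv.Perm IF where
  toFun i := (!i.1, -i.2)
  invFun i := (!i.1, -i.2)
  left_inv i := by simp
  right_inv i := by simp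

/-- `Y` -/
def opY : LA V0 := rei eY

/-- `σ` -/
def opS : LA V0 := rei eS

theorem opS_mul_self : opS * opS = 1 := by
  rw [opS, rei_mul, ← rei_one]
  congr 1
  ext i <;> simp [eS]

theorem pU_eS (i : IF) : pU (eS i) = (pU i)⁻¹ := by
  obtain ⟨b, i⟩ := i
  cases b <;> simp [pU, eS, zp_neg, mul_comm]

theorem opS_opX : opS * opX * opS⁻¹ = opX⁻¹ := by
  rw [opS, opX, rei_conj_mulV, ← map_inv]
  congr 1
  funext i
  exact pU_eS i

theorem opS_opY : opS * opY * opS⁻¹ = opY⁻¹ := by
  rw [mul_inv_eq_iff_eq_mul, eq_inv_mul_iff_mul_eq, opS, opY, rei_mul, rei_mul]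
  congr 1
  ext i <;> simp [eS, eY]

theorem opXY : ⁅opX, opY⁆ = scal zu := by
  have h1 : opX * (opY * opX⁻¹ * opY⁻¹) = scal zu := by
    rw [opX, opY, ← map_inv, rei_conj_mulV, ← map_mul, scal]
    congr 1
    funext i
    have h2 : zp i.2 = zp (i.2 - 1) * zu := by
      rw [← zp_one, ← zp_add, sub_add_cancel]
    have h3 : (pU * fun i => (pU)⁻¹ (eY i)) i = pU i * (pU (eY i))⁻¹ := rfl
    rw [h3, mul_inv_eq_iff_eq_mul]
    have h4 : pU (eY i) = (if i.1 then p0u else p0u⁻¹) * zp (i.2 - 1) := rfl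
    have h5 : pU i = (if i.1 then p0u else p0u⁻¹) * zp i.2 := rfl
    rw [h4, h5, h2]
    ac_rfl
  rw [commutatorElement_def]
  simpa [mul_assoc] using h1

theorem opY_pow : opY ^ 31 = 1 := by
  have h : ∀ n : ℕ, ∀ F : V0, ∀ i : IF, (opY ^ n) F i = F (i.1, i.2 - n) := by
    intro n
    induction n with
    | zero =>
      intro F i
      simp
    | succ n ih =>
      intro F i
      rw [pow_succ]
      change (opY ^ n) (opY F) i = _
      rw [ih]
      change F (i.1, i.2 - n - 1) = _
      rw [Nat.cast_succ, sub_sub]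
  ext F i
  rw [h]
  have h31 : ((31 : ℕ) : ZMod 31) = 0 := by decide
  rw [h31, sub_zero]
  rfl

theorem frob_opX : frob * opX * frob⁻¹ = opX * opX := frob_conj_mulV pU

theorem frob_opY : Commute frob opY := frob_commute_rei eY
theorem frob_opS : Commute frob opS := frob_commute_rei eS

theorem frob_scal {ι : Type*} (u : KKˣ) :
    (frob : LA (ι → KK)) * scal u * frob⁻¹ = scal u * scal u := frob_conj_mulV _

end

end Pool.Agent.H85.MG
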