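import Pool.Agent.H85.MG.Model3
import Pool.Agent.H86.FS.Rels

/-!
# helper85: the base generators of the model and relations (R1)-(R11)
-/

namespace Pool.Agent.H85.MG

open scoped commutatorElement
open Mn Pool.Agent.H86.FS

noncomputable section

/-- multiplications of the field -/
def mulK : KKˣ →* LA KK where
  toFun u :=
    { toFun := fun x => u * x
      invFun := fun x => (u⁻¹ : KKˣ) * x
      left_inv := fun x => by simp
      right_inv := fun x => by simp
      map_add' := fun x y => mul_add _ _ _
      map_smul' := fun c x => by simp }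
  map_one' := by
    ext x
    simp
  map_mul' u v := by
    ext x
    simp [mul_assoc]

@[simp] theorem mulK_apply (u : KKˣ) (x : KK) : mulK u x = u * x := rfl

theorem aeval_ne {P : Polynomial (ZMod 2)} (h : P.coeff 0 ≠ 0) : Polynomial.aeval p0 P ≠ 0 := by
  intro h1
  have h2 : P = 0 := p0_aeval (by rw [h1, map_zero])
  rw [h2] at h
  simp at h

theorem u1_ne : p0 + p0⁻¹ ≠ 0 := by
  intro h
  have h1 : p0 ^ 2 + 1 = 0 := by
    have h0 := p0_ne_zero
    field_simp at h
    linear_combination h
  exact aeval_ne (P := Polynomial.X ^ 2 + 1) (by simp) (by simpa using h1)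

theorem u2_ne : p0 + 1 + p0⁻¹ ≠ 0 := by
  intro h
  have h1 : p0 ^ 2 + p0 + 1 = 0 := by
    have h0 := p0_ne_zero
    field_simp at h
    linear_combination h
  exact aeval_ne (P := Polynomial.X ^ 2 + Polynomial.X + 1) (by simp) (by simpa using h1)

theorem s_ne (i : ℕ) : 1 + p0 ^ (2 * i + 3) ≠ 0 := fun h =>
  aeval_ne (P := 1 + Polynomial.X ^ (2 * i + 3)) (by simp) (by simpa using h)

theorem j1_ne : p0 ^ 31 + (p0 ^ 31)⁻¹ ≠ 0 := by
  intro h
  have h1 : p0 ^ 62 + 1 = 0 := by
    have h0 := p0_ne_zero
    field_simp at h
    linear_combination h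
  exact aeval_ne (P := Polynomial.X ^ 62 + 1) (by simp) (by simpa using h1)

theorem j2_ne : p0 ^ 31 + 1 + (p0 ^ 31)⁻¹ ≠ 0 := by
  intro h
  have h1 : p0 ^ 62 + p0 ^ 31 + 1 = 0 := by
    have h0 := p0_ne_zero
    field_simp at h
    linear_combination h
  exact aeval_ne (P := Polynomial.X ^ 62 + Polynomial.X ^ 31 + 1) (by simp) (by simpa using h1)

/-- `u1` -/
def u1u : KKˣ := Units.mk0 _ u1_ne
/-- `u2` -/
def u2u : KKˣ := Units.mk0 _ u2_ne
/-- `s_i` -/
def su (i : ℕ) : KKˣ := Units.mk0 _ (s_ne i)
/-- `j1` -/
def j1u : KKˣ := Units.mk0 _ j1_ne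
/-- `j2` -/
def j2u : KKˣ := Units.mk0 _ j2_ne

/-- The base group. -/
abbrev GB : Type := Mn (LA V0) KK

/-- The base generators. -/
def gb (r : ℕ) : Gens GB r where
  t := act (mulK p0u)
  u1 := act (mulK u1u)
  u2 := act (mulK u2u)
  s := fun i => act (mulK (su i))
  th := th 1
  et := et opS 1
  d := dd
  sg := sgn opS
  X := loc opX
  Y := loc opY
  ph := glob frob
  J1 := glob (scal j1u)
  J2 := glob (scal j2u)
  a := 1
  b := 1
  D := 1
  S := 1
  m := 1

variable {r : ℕ}

theorem cj_tK_th (u : KKˣ) (v : KK) :
    (cj (act (mulK u)) (th v) : GB) = th (u * v) := act_conj_th _ _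

theorem cj_tK_et (u : KKˣ) (v : KK) :
    (cj (act (mulK u)) (et opS v) : GB) = et opS (u * v) := act_conj_et _ _ _

theorem tK_pow (u : KKˣ) (k : ℕ) : (act (mulK u) ^ k : GB) = act (mulK (u ^ k)) := by
  rw [map_pow, map_pow]

theorem tK_inv (u : KKˣ) : ((act (mulK u))⁻¹ : GB) = act (mulK u⁻¹) := by
  rw [map_inv, map_inv]

theorem tK_commute (u v : KKˣ) : Commute (act (mulK u) : GB) (act (mulK v)) :=
  ((Commute.all u v).map mulK).map act

theorem brel_base : BRel (gb r) where
  tor := by
    simp only [List.forall_mem_cons, List.not_mem_nil, false_imp_iff, implies_true, and_true]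
    simp only [gb]
    refine ⟨⟨?_, ?_, ?_⟩, ⟨?_, ?_, ?_⟩, ?_, ?_, ?_⟩ <;> exact tK_commute _ _
  tors := by
    simp only [List.forall_mem_cons, List.not_mem_nil, false_imp_iff, implies_true, and_true]
    simp only [gb]
    refine ⟨?_, ?_, ?_⟩ <;> exact fun _ => tK_commute _ _
  ss := fun i j => tK_commute _ _
  ph := by
    simp only [List.forall_mem_cons, List.not_mem_nil, false_imp_iff, implies_true, and_true]
    simp only [gb]
    exact ⟨glob_commute_act _ _, glob_commute_act _ _, glob_commute_act _ _,
      glob_commute_th _ _, glob_commute_et frob_opS _, glob_commute_dd _,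
      glob_commute_sgn frob_opS, glob_commute_loc frob_opY⟩
  phs := fun i => glob_commute_act _ _
  inv := by
    simp only [List.forall_mem_cons, List.not_mem_nil, false_imp_iff, implies_true, and_true]
    simp only [gb]
    exact ⟨th_mul_self _, et_mul_self opS_mul_self _, dd_mul_self, sgn_mul_self opS_mul_self⟩
  u1c := by
    simp only [List.forall_mem_cons, List.not_mem_nil, false_imp_iff, implies_true, and_true]
    simp only [gb]
    constructor
    · rw [tK_inv, cj_tK_th, cj_tK_th, cj_tK_th, ← th_add]
      congr 1
      simp [u1u, p0u]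
    · rw [tK_inv, cj_tK_et, cj_tK_et, cj_tK_et, ← et_add opS_mul_self]
      congr 1
      simp [u1u, p0u]
  u2c := by
    simp only [List.forall_mem_cons, List.not_mem_nil, false_imp_iff, implies_true, and_true]
    simp only [gb]
    constructor
    · rw [tK_inv, cj_tK_th, cj_tK_th, cj_tK_th, ← th_add, ← th_add]
      congr 1
      simp [u2u, p0u]
    · rw [tK_inv, cj_tK_et, cj_tK_et, cj_tK_et, ← et_add opS_mul_self, ← et_add opS_mul_self]
      congr 1
      simp [u2u, p0u]
  sc := by
    simp only [List.forall_mem_cons, List.not_mem_nil, false_imp_iff, implies_true, and_true]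
    simp only [gb]
    constructor
    · intro i
      rw [tK_pow, cj_tK_th, cj_tK_th, ← th_add]
      congr 1
      simp [su, p0u]
    · intro i
      rw [tK_pow, cj_tK_et, cj_tK_et, ← et_add opS_mul_self]
      congr 1
      simp [su, p0u]
  com := by
    simp only [List.forall_mem_cons, List.not_mem_nil, false_imp_iff, implies_true, and_true]
    simp only [gb]
    constructor
    · intro k
      rw [tK_pow, cj_tK_th]
      exact th_commute _ _
    · intro k
      rw [tK_pow, cj_tK_et]
      exact et_commute _ _ _
  tr := by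
    intro i j k
    simp only [List.forall_mem_cons, List.not_mem_nil, false_imp_iff, implies_true, and_true]
    simp only [gb]
    rw [tK_pow, tK_pow, tK_pow, cj_tK_th, cj_tK_et, cj_tK_th, cj_tK_et, th_et opS_mul_self]
    exact ⟨cc_commute_th _ _ _ _, cc_commute_et _ _ _ _⟩
  sy := by
    intro k
    simp only [gb]
    rw [tK_pow, cj_tK_th, cj_tK_et, th_et opS_mul_self, th_et opS_mul_self, cc_symm]
  dt := by
    simp only [List.forall_mem_cons, List.not_mem_nil, false_imp_iff, implies_true, and_true]
    simp only [gb]
    refine ⟨⟨?_, ?_, ?_⟩, ?_, ?_, ?_⟩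
    · exact (act_commute_dd _).symm
    · exact (act_commute_dd _).symm
    · exact (act_commute_dd _).symm
    · exact (act_commute_sgn _ _).symm
    · exact (act_commute_sgn _ _).symm
    · exact (act_commute_sgn _ _).symm
  dts := by
    simp only [List.forall_mem_cons, List.not_mem_nil, false_imp_iff, implies_true, and_true]
    simp only [gb]
    exact ⟨fun _ => (act_commute_dd _).symm, fun _ => (act_commute_sgn _ _).symm⟩
  dth := dd_commute_th _
  sget := sgn_commute_et _ _
  thsg := by
    simp only [gb, Gens.rho]
    rw [th_sgn opS_mul_self, th_et opS_mul_self]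
  det := by
    simp only [gb, Gens.rho]
    rw [dd_et opS_mul_self, th_et opS_mul_self]
  sbc := by
    simp only [List.forall_mem_cons, List.not_mem_nil, false_imp_iff, implies_true, and_true]
    simp only [gb, Gens.sb]
    rw [dd_sgn opS_mul_self]
    exact ⟨glob_commute_th _ _, glob_commute_et (Commute.refl _) _, glob_commute_dd _,
      glob_commute_sgn (Commute.refl _)⟩
  XYc := by
    simp only [List.forall_mem_cons, List.not_mem_nil, false_imp_iff, implies_true, and_true]
    simp only [gb]
    refine ⟨⟨?_, ?_, ?_, ?_, ?_⟩, ?_, ?_, ?_, ?_, ?_⟩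
    · exact (act_commute_loc _ _).symm
    · exact (act_commute_loc _ _).symm
    · exact (act_commute_loc _ _).symm
    · exact loc_commute_et _ _ _
    · exact loc_commute_sgn _ _
    · exact (act_commute_loc _ _).symm
    · exact (act_commute_loc _ _).symm
    · exact (act_commute_loc _ _).symm
    · exact loc_commute_et _ _ _
    · exact loc_commute_sgn _ _
  XYs := by
    simp only [List.forall_mem_cons, List.not_mem_nil, false_imp_iff, implies_true, and_true]
    simp only [gb]
    exact ⟨fun _ => (act_commute_loc _ _).symm, fun _ => (act_commute_loc _ _).symm⟩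
  XYsb := by
    simp only [List.forall_mem_cons, List.not_mem_nil, false_imp_iff, implies_true, and_true]
    simp only [gb, Gens.sb]
    rw [dd_sgn opS_mul_self]
    constructor
    · rw [cj, glob_conj_loc, opS_opX, map_inv]
    · rw [cj, glob_conj_loc, opS_opY, map_inv]
  XYd := by
    simp only [List.forall_mem_cons, List.not_mem_nil, false_imp_iff, implies_true, and_true]
    exact ⟨loc_commute_conj _ _, loc_commute_conj _ _⟩
  XYth := by
    simp only [List.forall_mem_cons, List.not_mem_nil, false_imp_iff, implies_true, and_true]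
    simp only [gb, cj]
    rw [loc_mul_conj, loc_mul_conj]
    exact ⟨(glob_commute_th _ _).symm, (glob_commute_th _ _).symm⟩
  phX := by
    simp only [gb, cj]
    rw [glob_conj_loc, frob_opX, map_mul]
  Y31 := by
    simp only [gb]
    rw [← map_pow, opY_pow, map_one]
  XY' := loc_commute_conj _ _
  Zc := by
    simp only [List.forall_mem_cons, List.not_mem_nil, false_imp_iff, implies_true, and_true]
    simp only [gb, Gens.Z, Gens.rho]
    rw [← map_commutatorElement, opXY, th_et opS_mul_self]
    refine ⟨?_, ?_, ?_⟩
    · exact (scal_commute_mulV _ _).map loc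
    · exact (scal_commute_rei _ _).map loc
    · exact loc_commute_cc (scal_commute_rei _ _) _ _
  Jc := by
    have h : ∀ u : KKˣ, Commute (glob (scal u) : GB) (act (mulK p0u)) ∧
        Commute (glob (scal u) : GB) (act (mulK u1u)) ∧
        Commute (glob (scal u) : GB) (act (mulK u2u)) ∧
        Commute (glob (scal u) : GB) (th 1) ∧
        Commute (glob (scal u) : GB) (et opS 1) ∧
        Commute (glob (scal u) : GB) dd ∧
        Commute (glob (scal u) : GB) (sgn opS) ∧
        Commute (glob (scal u) : GB) (loc opX) ∧
        Commute (glob (scal u) : GB) (loc opY) := fun u =>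
      ⟨glob_commute_act _ _, glob_commute_act _ _, glob_commute_act _ _, glob_commute_th _ _,
        glob_commute_et (scal_commute_rei _ _) _, glob_commute_dd _,
        glob_commute_sgn (scal_commute_rei _ _), glob_commute_loc (scal_commute_mulV _ _),
        glob_commute_loc (scal_commute_rei _ _)⟩
    simp only [List.forall_mem_cons, List.not_mem_nil, false_imp_iff, implies_true, and_true]
    exact ⟨h j1u, h j2u⟩
  Js := by
    simp only [List.forall_mem_cons, List.not_mem_nil, false_imp_iff, implies_true, and_true]
    exact ⟨fun _ => glob_commute_act _ _, fun _ => glob_commute_act _ _⟩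
  JJ := (scal_commute_mulV _ _).map glob
  phJ := by
    simp only [List.forall_mem_cons, List.not_mem_nil, false_imp_iff, implies_true, and_true]
    simp only [gb, cj]
    rw [← map_inv, ← map_mul, ← map_mul, ← map_mul, ← map_mul, ← map_mul, frob_scal, frob_scal]
    exact ⟨rfl, rfl⟩

end

end Pool.Agent.H85.MG
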