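import Pool.Agent.H85.MG.Model4

/-!
# helper85: the top generators of the model and all relations
-/

namespace Pool.Agent.H85.MG

open scoped commutatorElement
open Mn Pool.Agent.H86.FS

noncomputable section

theorem lm {G G' : Type*} (f : G → G') (l : List G) {P : G' → Prop} (h : ∀ x ∈ l, P (f x)) :
    ∀ y ∈ l.map f, P y := List.forall_mem_map.2 h

theorem cj_map {G G' : Type*} [Group G] [Group G'] (f : G →* G') (x y : G) :
    f (cj x y) = cj (f x) (f y) := by simp [cj]

/-- Relations (R1)-(R11) are preserved by homomorphisms, and `ph` can be multiplied by an element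
which commutes with the image. -/
theorem twist {G G' : Type*} [Group G] [Group G'] {r : ℕ} (f : G →* G') (g : Gens G r)
    (h : BRel g) (c : G') (hc : ∀ x, Commute c (f x)) (a b D S m : G') :
    BRel { g.map f with ph := f g.ph * c, a := a, b := b, D := D, S := S, m := m } where
  tor := lm f [g.t, g.u1, g.u2] fun x hx => lm f [g.t, g.u1, g.u2] fun y hy =>
    (h.tor x hx y hy).map f
  tors := lm f [g.t, g.u1, g.u2] fun x hx i => (h.tors x hx i).map f
  ss := fun i j => (h.ss i j).map f
  ph := lm f [g.t, g.u1, g.u2, g.th, g.et, g.d, g.sg, g.Y] fun x hx =>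
    ((h.ph x hx).map f).mul_left (hc x)
  phs := fun i => ((h.phs i).map f).mul_left (hc _)
  inv := lm f [g.th, g.et, g.d, g.sg] fun x hx => by
    rw [← map_mul, h.inv x hx, map_one]
  u1c := lm f [g.th, g.et] fun x hx => by
    have := congrArg f (h.u1c x hx)
    simpa [Gens.map, cj] using this
  u2c := lm f [g.th, g.et] fun x hx => by
    have := congrArg f (h.u2c x hx)
    simpa [Gens.map, cj] using this
  sc := lm f [g.th, g.et] fun x hx i => by
    have := congrArg f (h.sc x hx i)
    simpa [Gens.map, cj] using this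
  com := lm f [g.th, g.et] fun x hx k => by
    have := (h.com x hx k).map f
    simpa [Gens.map, cj] using this
  tr := fun i j k => lm f [g.th, g.et] fun x hx => by
    have := (h.tr i j k x hx).map f
    simpa [Gens.map, cj, map_commutatorElement] using this
  sy := fun k => by
    have := congrArg f (h.sy k)
    simpa [Gens.map, cj, map_commutatorElement] using this
  dt := lm f [g.d, g.sg] fun x hx => lm f [g.t, g.u1, g.u2] fun y hy =>
    (h.dt x hx y hy).map f
  dts := lm f [g.d, g.sg] fun x hx i => (h.dts x hx i).map f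
  dth := h.dth.map f
  sget := h.sget.map f
  thsg := by
    have := congrArg f h.thsg
    simpa [Gens.map, Gens.rho, map_commutatorElement] using this
  det := by
    have := congrArg f h.det
    simpa [Gens.map, Gens.rho, map_commutatorElement] using this
  sbc := lm f [g.th, g.et, g.d, g.sg] fun x hx => by
    have := (h.sbc x hx).map f
    simpa [Gens.map, Gens.sb, map_commutatorElement] using this
  XYc := lm f [g.X, g.Y] fun x hx => lm f [g.t, g.u1, g.u2, g.et, g.sg] fun y hy =>
    (h.XYc x hx y hy).map f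
  XYs := lm f [g.X, g.Y] fun x hx i => (h.XYs x hx i).map f
  XYsb := lm f [g.X, g.Y] fun x hx => by
    have := congrArg f (h.XYsb x hx)
    simpa [Gens.map, Gens.sb, cj, map_commutatorElement] using this
  XYd := lm f [g.X, g.Y] fun x hx => by
    have := (h.XYd x hx).map f
    simpa [Gens.map, cj, map_commutatorElement] using this
  XYth := lm f [g.X, g.Y] fun x hx => by
    have := (h.XYth x hx).map f
    simpa [Gens.map, cj, map_commutatorElement] using this
  phX := by
    have := congrArg f h.phX
    have h2 : cj (f g.ph * c) (f g.X) = cj (f g.ph) (f g.X) := by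
      have h3 : c * f g.X * c⁻¹ = f g.X := by rw [(hc g.X).eq, mul_inv_cancel_right]
      calc (f g.ph * c) * f g.X * (f g.ph * c)⁻¹ = f g.ph * (c * f g.X * c⁻¹) * (f g.ph)⁻¹ := by
            group
        _ = _ := by rw [h3]
    change cj (f g.ph * c) (f g.X) = _
    rw [h2]
    simpa [Gens.map, cj] using this
  Y31 := by
    have := congrArg f h.Y31
    simpa [Gens.map] using this
  XY' := by
    have := h.XY'.map f
    simpa [Gens.map, cj] using this
  Zc := by
    have h0 := h.Zc
    simp only [List.forall_mem_cons, List.not_mem_nil, false_imp_iff, implies_true, and_true]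
      at h0 ⊢
    obtain ⟨h1, h2, h3⟩ := h0
    have h1' := h1.map f
    have h2' := h2.map f
    have h3' := h3.map f
    simp only [Gens.map, Gens.Z, Gens.rho, map_commutatorElement] at h1' h2' h3' ⊢
    exact ⟨h1', h2', h3'⟩
  Jc := lm f [g.J1, g.J2] fun x hx =>
    lm f [g.t, g.u1, g.u2, g.th, g.et, g.d, g.sg, g.X, g.Y] fun y hy =>
    (h.Jc x hx y hy).map f
  Js := lm f [g.J1, g.J2] fun x hx i => (h.Js x hx i).map f
  JJ := h.JJ.map f
  phJ := lm f [g.J1, g.J2] fun x hx => by
    have := congrArg f (h.phJ x hx)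
    have h2 : cj (f g.ph * c) (f x) = cj (f g.ph) (f x) := by
      have h3 : c * f x * c⁻¹ = f x := by rw [(hc x).eq, mul_inv_cancel_right]
      calc (f g.ph * c) * f x * (f g.ph * c)⁻¹ = f g.ph * (c * f x * c⁻¹) * (f g.ph)⁻¹ := by
            group
        _ = _ := by rw [h3]
    change cj (f g.ph * c) (f x) = _
    rw [h2]
    simpa [Gens.map, cj] using this

/-! ### The top group -/

/-- The vector space of the upper level. -/
abbrev V2 : Type := Ix KK → V0

/-- The group of the model. -/
abbrev GT : Type := Mn (Equiv.Perm ℚ) V2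

/-- the sign on `ℚ` -/
def nq : Equiv.Perm ℚ := Equiv.neg ℚ
/-- multiplication by `2` -/
def mq : Equiv.Perm ℚ := Equiv.mulLeft₀ 2 two_ne_zero
/-- translations -/
def tq : Multiplicative ℚ →* Equiv.Perm ℚ where
  toFun x := Equiv.addLeft x.toAdd
  map_one' := by
    ext x
    simp
  map_mul' x y := by
    ext z
    simp

@[simp] theorem nq_apply (x : ℚ) : nq x = -x := rfl
@[simp] theorem mq_apply (x : ℚ) : mq x = 2 * x := rfl
@[simp] theorem tq_apply (a : Multiplicative ℚ) (x : ℚ) : tq a x = a.toAdd + x := rfl

theorem nq_mul_self : nq * nq = 1 := by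
  ext x
  simp

theorem mq_commute_nq : Commute mq nq := by
  have h : mq * nq = nq * mq := by
    ext x
    simp
  exact h

theorem nq_conj_tq (a : Multiplicative ℚ) : nq * tq a * nq⁻¹ = tq a⁻¹ := by
  rw [mul_inv_eq_iff_eq_mul]
  ext x
  change -(a.toAdd + x) = (a⁻¹).toAdd + -x
  rw [toAdd_inv]
  ring

theorem mq_conj_tq (a : Multiplicative ℚ) : mq * tq a * mq⁻¹ = tq a * tq a := by
  rw [mul_inv_eq_iff_eq_mul]
  ext x
  simp
  ring

/-- The embedding of the base group. -/
def BB : GB →* GT := (act : LA V2 →* GT).comp toLA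

/-- The vector `v0`. -/
def v0 : V2 := fun i _ => if i.1 = 0 then 1 else 0

/-- The generators of the model. -/
def gm (r : ℕ) : Gens GT r :=
  { (gb r).map BB with
    ph := BB (gb r).ph * glob mq
    a := th v0
    b := et nq v0
    D := dd
    S := sgn nq
    m := loc (tq (Multiplicative.ofAdd 1)) }

theorem mq_commute_BB (x : GB) : Commute (glob mq : GT) (BB x) := glob_commute_act _ _

theorem brel_top (r : ℕ) : BRel (gm r) :=
  twist BB (gb r) brel_base (glob mq) mq_commute_BB _ _ _ _ _

/-- The two kinds of letters. -/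
structure CT (T : V2 → GT) : Prop where
  zero : T 0 = 1
  add : ∀ v w, T (v + w) = T v * T w
  comm : ∀ v w, Commute (T v) (T w)
  conj : ∀ x v, cj (BB x) (T v) = T (toLA x v)
  mu : ∀ v, Commute (glob mq) (T v)

theorem ct_th : CT th where
  zero := th_zero
  add := th_add
  comm := th_commute
  conj _ _ := act_conj_th _ _
  mu _ := glob_commute_th _ _

theorem ct_et : CT (et nq) where
  zero := et_zero _
  add := et_add nq_mul_self
  comm := et_commute _
  conj _ _ := act_conj_et _ _ _
  mu _ := glob_commute_et mq_commute_nq _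

theorem CT.fix {T : V2 → GT} (hT : CT T) {x : GB} {v : V2} (h : toLA x v = v) :
    Commute (T v) (BB x) := by
  have h1 := hT.conj x v
  rw [h, cj, mul_inv_eq_iff_eq_mul] at h1
  exact h1.symm

theorem CT.fix_ph {T : V2 → GT} (hT : CT T) {x : GB} {v : V2} (h : toLA x v = v) :
    Commute (T v) (BB x * glob mq) := (hT.fix h).mul_right (hT.mu v).symm

theorem sp_one_fix (k : ZMod 2) (F : V0) (hF : opS F = F) : sp opS k F = F := by
  have h2 : ∀ x : ZMod 2, x = 0 ∨ x = 1 := by decide
  rcases h2 k with rfl | rfl
  · rw [sp_zero]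
    rfl
  · rw [sp_one]
    exact hF

theorem v0_zero {i : Ix KK} (h : i.1 = 0) : v0 i = 1 := by
  funext j
  simp [v0, h]

theorem v0_ne {i : Ix KK} (h : i.1 ≠ 0) : v0 i = 0 := by
  funext j
  simp [v0, h]

theorem opS_one : opS 1 = 1 := rfl
theorem opY_one : opY 1 = 1 := rfl

theorem v0_fix_S (i : Ix KK) : opS (v0 i) = v0 i := by
  by_cases h : i.1 = 0
  · rw [v0_zero h, opS_one]
  · rw [v0_ne h, map_zero]

theorem fix_act (q : LA KK) : toLA (act q : GB) v0 = v0 := rfl

theorem fix_et (u : KK) : toLA (et opS u : GB) v0 = v0 := by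
  funext i
  exact sp_one_fix _ _ (v0_fix_S i)

theorem fix_sgn : toLA (sgn opS : GB) v0 = v0 := by
  funext i
  exact sp_one_fix _ _ (v0_fix_S i)

theorem fix_cc (u v : KK) : toLA (cc opS u v : GB) v0 = v0 := by
  funext i
  exact sp_one_fix _ _ (v0_fix_S i)

theorem fix_globS : toLA (glob opS : GB) v0 = v0 := by
  funext i
  exact v0_fix_S i

theorem fix_frob : toLA (glob frob : GB) v0 = v0 := by
  funext i j
  change (v0 i j) ^ 2 = v0 i j
  unfold v0
  split <;> simp

theorem fix_Y : toLA (loc opY : GB) v0 = v0 := by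
  funext i
  change (if i.1 = 0 then opY else 1) (v0 i) = v0 i
  split
  · next h => rw [v0_zero h, opY_one]
  · rfl

theorem fix_conj (f : LA V0) : toLA (dd * loc f * dd⁻¹ : GB) v0 = v0 := by
  rw [dd_conj_loc]
  funext i
  change (if i.1 = 0 then 1 else f) (v0 i) = v0 i
  split
  · rfl
  · next h => rw [v0_ne h, map_zero]

theorem toLA_dd_v0 : v0 + toLA (dd : GB) v0 = fun _ _ => 1 := by
  funext i j
  change v0 i j + v0 (i.1 + 1, i.2) j = 1
  have h2 : ∀ x : ZMod 2, x = 0 ∨ x = 1 := by decide
  have h11 : (1 + 1 : ZMod 2) = 0 := by decide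
  rcases h2 i.1 with h | h <;> simp [v0, h, h11]

theorem toLA_loc (f : LA V0) : toLA (loc f : GB) v0 = fun i => if i.1 = 0 then f 1 else 0 := by
  funext i
  change (if i.1 = 0 then f else 1) (v0 i) = _
  split
  · next h => rw [v0_zero h]
  · next h => rw [v0_ne h]; rfl

end

end Pool.Agent.H85.MG
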